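import Pool.Agent.L5helper75.AP.Comp

set_option autoImplicit false

/-! An effectively closed class of Martin-Löf random sequences. -/

namespace Pool.Agent.L5helper75.PJ

open Nat.Partrec (Code)
open Filter
open Pool.Agent.Helper743
open Pool.Agent.Helper743.AC (geo_le pow_p pre_take)
open Pool.Agent.L5helper75.AP (bt bt_le bt_ex compact_bound)
open Pool.Agent.H166R3.AT

/-! ### numbers as strings -/

/-- characteristic functions -/
def xf (X : ℕ → Bool) (n : ℕ) : ℕ := (X n).toNat

/-- the first `n` bits of the number `m` -/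
def sb (n m : ℕ) : List ℕ := (List.range n).map (fun i => bt m i)

/-- bits as truth values -/
def bl (β : List ℕ) : List Bool := β.map (fun t => decide (t = 1))

lemma sb_len (n m : ℕ) : (sb n m).length = n := by simp [sb]

lemma sb_take {n k m : ℕ} (h : k ≤ n) : (sb n m).take k = sb k m := by
  unfold sb
  rw [← List.map_take, List.take_range, min_eq_left h]

lemma sb_prefix {n k m : ℕ} (h : k ≤ n) : sb k m <+: sb n m := by
  rw [← sb_take h]; exact List.take_prefix _ _

lemma bt_mod {n m i : ℕ} (h : i < n) : bt (m % 2 ^ n) i = bt m i := by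
  unfold bt
  have h1 : ∀ x : ℕ, x / 2 ^ i % 2 = if x.testBit i then 1 else 0 := by
    intro x
    rw [Nat.testBit_eq_decide_div_mod_eq]
    have := Nat.mod_two_eq_zero_or_one (x / 2 ^ i)
    rcases this with h | h <;> simp [h]
  rw [h1, h1, Nat.testBit_mod_two_pow]
  simp [h]

lemma sb_mod (n m : ℕ) : sb n (m % 2 ^ n) = sb n m := by
  unfold sb
  apply List.map_congr_left
  intro i hi
  rw [List.mem_range] at hi
  exact bt_mod hi

lemma sb_inj {n m m' : ℕ} (hm : m < 2 ^ n) (hm' : m' < 2 ^ n) (h : sb n m = sb n m') :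
    m = m' := by
  have h1 : ∀ x i : ℕ, (x.testBit i) = decide (bt x i = 1) := by
    intro x i
    rw [Nat.testBit_eq_decide_div_mod_eq]
    rfl
  apply Nat.eq_of_testBit_eq
  intro i
  by_cases hi : i < n
  · rw [h1, h1]
    have h2 := congrArg (fun l => l[i]?) h
    unfold sb at h2
    simp [hi] at h2
    rw [h2]
  · rw [Nat.testBit_lt_two_pow (lt_of_lt_of_le hm (Nat.pow_le_pow_right (by norm_num) (by omega))),
      Nat.testBit_lt_two_pow (lt_of_lt_of_le hm' (Nat.pow_le_pow_right (by norm_num) (by omega)))]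

lemma bl_sb_inj {n m m' : ℕ} (h : bl (sb n m) = bl (sb n m')) : sb n m = sb n m' := by
  apply List.ext_getElem
  · rw [sb_len, sb_len]
  · intro i h1 h2
    have h3 := congrArg (fun l => l[i]?) h
    rw [sb_len] at h1
    unfold bl sb at h3
    simp [h1] at h3
    unfold sb
    simp only [List.getElem_map, List.getElem_range]
    have h4 := bt_le m i
    have h5 := bt_le m' i
    by_cases h6 : bt m i = 1
    · rw [h6, h3.1 h6]
    · have h7 : ¬ bt m' i = 1 := fun h8 => h6 (h3.2 h8)
      omega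

/-- the sequence given by a number -/
def nX (m : ℕ) (i : ℕ) : Bool := decide (bt m i = 1)

lemma sb_pre (n m : ℕ) : sb n m = pre (xf (nX m)) n := by
  unfold sb pre xf nX
  apply List.map_congr_left
  intro i _
  have h4 := bt_le m i
  by_cases h : bt m i = 1
  · rw [h]; simp
  · have : bt m i = 0 := by omega
    rw [this]; simp

lemma ex_sb (X : ℕ → Bool) (n : ℕ) : ∃ m < 2 ^ n, sb n m = pre (xf X) n := by
  obtain ⟨m, hm, h⟩ := bt_ex X n
  refine ⟨m, hm, ?_⟩
  unfold sb pre xf
  apply List.map_congr_left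
  intro i hi
  rw [List.mem_range] at hi
  exact h i hi

lemma bl_pre (X : ℕ → Bool) (n : ℕ) : bl (pre (xf X) n) = List.ofFn (fun i : Fin n => X i) := by
  apply List.ext_getElem
  · simp [bl]
  · intro i h1 h2
    simp only [bl, pre, xf, List.getElem_map, List.getElem_range, List.getElem_ofFn]
    cases X i <;> simp

lemma count_ext (P : ℕ → Prop) [DecidablePred P] {n N : ℕ} (h : n ≤ N) :
    ((Finset.range (2 ^ N)).filter (fun m => P (m % 2 ^ n))).card =
      2 ^ (N - n) * ((Finset.range (2 ^ n)).filter P).card := by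
  induction N, h using Nat.le_induction with
  | base =>
    rw [Nat.sub_self, pow_zero, one_mul]
    congr 1
    apply Finset.filter_congr
    intro m hm
    rw [Finset.mem_range] at hm
    rw [Nat.mod_eq_of_lt hm]
  | succ N hN ih =>
    rw [Finset.card_filter] at ih ⊢
    have h1 : 2 ^ (N + 1) = 2 ^ N + 2 ^ N := by ring
    rw [h1, Finset.sum_range_add]
    have h2 : ∀ m, (2 ^ N + m) % 2 ^ n = m % 2 ^ n := by
      intro m
      obtain ⟨c, hc⟩ : 2 ^ n ∣ 2 ^ N := Nat.pow_dvd_pow 2 hN
      rw [hc, Nat.add_comm, Nat.add_mul_mod_self_left]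
    simp only [h2]
    rw [ih]
    have h3 : N + 1 - n = (N - n) + 1 := by omega
    rw [h3, pow_succ]
    ring

/-! ### effectively closed classes -/

def cl (d : List ℕ → Bool) : Set (ℕ → Bool) := {X | ∀ n, d (pre (xf X) n) = false}

lemma pre_xf_congr {a b : ℕ → Bool} {n : ℕ} (h : ∀ i < n, a i = b i) :
    pre (xf a) n = pre (xf b) n := by
  unfold pre xf
  apply List.map_congr_left
  intro i hi
  rw [List.mem_range] at hi
  rw [h i hi]

lemma cl_bound {d : List ℕ → Bool} {T : Set (ℕ → Bool)} {l : ℕ}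
    (hT : ∀ a b : ℕ → Bool, (∀ i < l, a i = b i) → a ∈ T → b ∈ T) (h : T ∩ cl d = ∅) :
    ∃ N, ∀ a ∈ T, ∃ n ≤ N, d (pre (xf a) n) = true := by
  have hcb := compact_bound (P := fun n a => l ≤ n ∧ (a ∈ T → ∃ k ≤ n,
      d (pre (xf a) k) = true)) ?_ ?_ ?_
  · obtain ⟨N, hN⟩ := hcb
    exact ⟨N, fun a ha => (hN a).2 ha⟩
  · rintro n a b hab ⟨h1, h2⟩
    refine ⟨h1, fun hb => ?_⟩
    obtain ⟨k, hk, h3⟩ := h2 (hT b a (fun i hi => (hab i (by omega)).symm) hb)
    exact ⟨k, hk, by rw [← pre_xf_congr (fun i hi => hab i (by omega))]; exact h3⟩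
  · rintro n m a hnm ⟨h1, h2⟩
    refine ⟨by omega, fun ha => ?_⟩
    obtain ⟨k, hk, h3⟩ := h2 ha
    exact ⟨k, by omega, h3⟩
  · intro a
    by_cases ha : a ∈ T
    · have h1 : a ∉ cl d := fun h2 => by
        have : a ∈ T ∩ cl d := ⟨ha, h2⟩
        rw [h] at this
        exact this
      have h2 : ∃ n, ¬ d (pre (xf a) n) = false := by
        by_contra h3
        push Not at h3
        exact h1 h3
      obtain ⟨n, hn⟩ := h2
      rw [Bool.not_eq_false] at hn
      exact ⟨max n l, le_max_right _ _, fun _ => ⟨n, le_max_left _ _, hn⟩⟩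
    · exact ⟨l, le_refl l, fun h => absurd h ha⟩

/-! ### the class of random sequences -/

/-- a string is covered by the `n`-th component of the test with index `e` -/
def covB (e n : ℕ) (β : List ℕ) : Bool :=
  bex (β.length + 1) (fun l => (Code.evaln β.length (Denumerable.ofNat Code e)
    (Encodable.encode (n, bl (β.take l)))).isSome)

def cnt (e n t : ℕ) : ℕ :=
  ((Finset.range (2 ^ t)).filter (fun m => covB e n (sb t m) = true)).card

def okB (e n t : ℕ) : Bool := decide (2 ^ n * cnt e n t ≤ 2 ^ t)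

def killR (β : List ℕ) : Bool :=
  bex (β.length + 1) (fun e => covB e (e + 2) β && okB e (e + 2) β.length)

lemma covB_iff {e n : ℕ} {β : List ℕ} : covB e n β = true ↔ ∃ l < β.length + 1,
    (Code.evaln β.length (Denumerable.ofNat Code e)
      (Encodable.encode (n, bl (β.take l)))).isSome = true := by
  unfold covB
  rw [bex_iff]

lemma covB_mono {e n : ℕ} {β β' : List ℕ} (h : β <+: β') (hc : covB e n β = true) :
    covB e n β' = true := by
  rw [covB_iff] at *
  obtain ⟨l, hl, h1⟩ := hc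
  have hlen := h.length_le
  refine ⟨l, by omega, ?_⟩
  have h2 : β'.take l = β.take l := by
    obtain ⟨ρ, rfl⟩ := h
    rw [List.take_append_of_le_length (by omega)]
  rw [h2]
  rw [Option.isSome_iff_exists] at h1 ⊢
  obtain ⟨a, ha⟩ := h1
  exact ⟨a, Code.evaln_mono hlen ha⟩

section comp

variable {α : Type*} [Primcodable α]

lemma bl_p : Primrec bl :=
  Primrec.list_map Primrec.id
    ((Primrec.eq.comp Primrec.snd (Primrec.const 1)).decide.to₂)

lemma sb_p : Primrec₂ sb := by
  have h : Primrec (fun q : (ℕ × ℕ) × ℕ => q.1.2 / 2 ^ q.2 % 2) :=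
    Primrec.nat_mod.comp (Primrec.nat_div.comp (Primrec.snd.comp Primrec.fst)
      (pow_p.comp Primrec.snd)) (Primrec.const 2)
  exact Primrec.list_map (Primrec.list_range.comp (Primrec.fst (α := ℕ) (β := ℕ))) h.to₂

lemma covB_c {e n : α → ℕ} {β : α → List ℕ} (he : Computable e) (hn : Computable n)
    (hb : Computable β) : Computable (fun a => covB (e a) (n a) (β a)) := by
  refine c_bex (Computable.succ.comp (Computable.list_length.comp hb)) ?_
  have h1 : Computable (fun q : α × ℕ => Code.evaln (β q.1).length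
      (Denumerable.ofNat Code (e q.1)) (Encodable.encode (n q.1, bl ((β q.1).take q.2)))) := by
    refine Code.primrec_evaln.to_comp.comp ((Computable.pair ?_ ?_).pair ?_)
    · exact Computable.list_length.comp (hb.comp Computable.fst)
    · exact (Primrec.ofNat Code).to_comp.comp (he.comp Computable.fst)
    · exact Computable.encode.comp ((hn.comp Computable.fst).pair
        (bl_p.to_comp.comp (Primrec.list_take.to_comp.comp Computable.snd
          (hb.comp Computable.fst))))
  exact Primrec.option_isSome.to_comp.comp h1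

lemma cnt_c {e n t : α → ℕ} (he : Computable e) (hn : Computable n) (ht : Computable t) :
    Computable (fun a => cnt (e a) (n a) (t a)) := by
  refine c_count (c_pow (Computable.const 2) ht) ?_
  exact covB_c (he.comp Computable.fst) (hn.comp Computable.fst)
    (sb_p.to_comp.comp (ht.comp Computable.fst) Computable.snd)

lemma okB_c {e n t : α → ℕ} (he : Computable e) (hn : Computable n) (ht : Computable t) :
    Computable (fun a => okB (e a) (n a) (t a)) :=
  c_le (c_mul (c_pow (Computable.const 2) hn) (cnt_c he hn ht)) (c_pow (Computable.const 2) ht)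

lemma killR_c : Computable killR := by
  refine c_bex (Computable.succ.comp Computable.list_length) ?_
  have e : Computable (fun q : List ℕ × ℕ => q.2) := Computable.snd
  have e2 : Computable (fun q : List ℕ × ℕ => q.2 + 2) := c_add e (Computable.const 2)
  exact c_and (covB_c e e2 Computable.fst) (okB_c e e2 (Computable.list_length.comp
    Computable.fst))

end comp

lemma killR_iff {β : List ℕ} : killR β = true ↔ ∃ e < β.length + 1,
    covB e (e + 2) β = true ∧ okB e (e + 2) β.length = true := by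
  unfold killR
  rw [bex_iff]
  simp only [Bool.and_eq_true]

lemma killR_ne : (cl killR).Nonempty := by
  classical
  by_contra hne
  rw [Set.not_nonempty_iff_eq_empty] at hne
  obtain ⟨N, hN⟩ := cl_bound (d := killR) (T := Set.univ) (l := 0)
    (fun _ _ _ _ => Set.mem_univ _) (by rw [hne, Set.inter_empty])
  let B : ℕ → Finset ℕ := fun e => (Finset.range (2 ^ N)).filter
    (fun m => ∃ n ≤ N, covB e (e + 2) (sb n m) = true ∧ okB e (e + 2) n = true)
  have hB : ∀ e, 2 ^ (e + 2) * (B e).card ≤ 2 ^ N := by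
    intro e
    let S := (Finset.range (N + 1)).filter (fun n => okB e (e + 2) n = true)
    by_cases hS : S.Nonempty
    · have h1 := S.max'_mem hS
      set n0 := S.max' hS with hn0
      rw [Finset.mem_filter, Finset.mem_range] at h1
      have h2 : B e ⊆ (Finset.range (2 ^ N)).filter
          (fun m => covB e (e + 2) (sb n0 (m % 2 ^ n0)) = true) := by
        intro m hm
        rw [Finset.mem_filter] at hm ⊢
        obtain ⟨hm1, n, hn, h3, h4⟩ := hm
        refine ⟨hm1, ?_⟩
        rw [sb_mod]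
        have h5 : n ≤ n0 := S.le_max' n (by
          rw [Finset.mem_filter, Finset.mem_range]; exact ⟨by omega, h4⟩)
        exact covB_mono (sb_prefix h5) h3
      have h3 := Finset.card_le_card h2
      rw [count_ext (fun m => covB e (e + 2) (sb n0 m) = true) (show n0 ≤ N by omega)] at h3
      have h4 : 2 ^ (e + 2) * cnt e (e + 2) n0 ≤ 2 ^ n0 := by
        have := h1.2
        unfold okB at this
        exact of_decide_eq_true this
      calc 2 ^ (e + 2) * (B e).card ≤ 2 ^ (e + 2) * (2 ^ (N - n0) * cnt e (e + 2) n0) :=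
            Nat.mul_le_mul_left _ h3
        _ = 2 ^ (N - n0) * (2 ^ (e + 2) * cnt e (e + 2) n0) := by ring
        _ ≤ 2 ^ (N - n0) * 2 ^ n0 := Nat.mul_le_mul_left _ h4
        _ = 2 ^ N := by rw [← pow_add]; congr 1; omega
    · have h1 : B e = ∅ := by
        rw [Finset.eq_empty_iff_forall_notMem]
        intro m hm
        rw [Finset.mem_filter] at hm
        obtain ⟨_, n, hn, _, h4⟩ := hm
        apply hS
        exact ⟨n, by rw [Finset.mem_filter, Finset.mem_range]; exact ⟨by omega, h4⟩⟩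
      rw [h1]; simp
  have hcov : Finset.range (2 ^ N) ⊆ (Finset.range (N + 1)).biUnion B := by
    intro m hm
    obtain ⟨n, hn, h1⟩ := hN (nX m) (Set.mem_univ _)
    rw [← sb_pre, killR_iff, sb_len] at h1
    obtain ⟨e, he, h2, h3⟩ := h1
    rw [Finset.mem_biUnion]
    exact ⟨e, Finset.mem_range.2 (by omega), by
      rw [Finset.mem_filter]; exact ⟨hm, n, hn, h2, h3⟩⟩
  have h1 := le_trans (Finset.card_le_card hcov) Finset.card_biUnion_le
  rw [Finset.card_range] at h1
  have h2 : ((2 : ℝ) ^ N) ≤ ∑ e ∈ Finset.range (N + 1), ((B e).card : ℝ) := by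
    have : ((2 ^ N : ℕ) : ℝ) ≤ ((∑ e ∈ Finset.range (N + 1), (B e).card : ℕ) : ℝ) := by
      exact_mod_cast h1
    push_cast at this
    exact this
  have h3 : ∀ e ∈ Finset.range (N + 1), ((B e).card : ℝ) ≤ 2 ^ N * (1 / 4) * (1 / 2) ^ e := by
    intro e _
    have h4 : ((2 : ℝ) ^ (e + 2)) * (B e).card ≤ 2 ^ N := by exact_mod_cast hB e
    have h5 : (0 : ℝ) < 2 ^ e := by positivity
    have h6 : (2 : ℝ) ^ e * (1 / 2) ^ e = 1 := by rw [← mul_pow]; norm_num
    have h7 : (B e).card * ((2 : ℝ) ^ e * 4) ≤ 2 ^ N := by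
      rw [pow_add] at h4
      linarith
    have h8 : (0 : ℝ) < (1 / 2) ^ e := by positivity
    calc ((B e).card : ℝ) = (B e).card * ((2 : ℝ) ^ e * 4) * ((1 / 4) * (1 / 2) ^ e) := by
          have : (B e).card * ((2 : ℝ) ^ e * 4) * ((1 / 4) * (1 / 2) ^ e) =
            (B e).card * ((2 : ℝ) ^ e * (1 / 2) ^ e) := by ring
          rw [this, h6, mul_one]
      _ ≤ 2 ^ N * ((1 / 4) * (1 / 2) ^ e) := mul_le_mul_of_nonneg_right h7 (by positivity)
      _ = _ := by ring
  have h4 := Finset.sum_le_sum h3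
  rw [← Finset.mul_sum] at h4
  have h5 := geo_le (Finset.range (N + 1))
  have h6 : (0 : ℝ) < 2 ^ N := by positivity
  have h7 : (2 : ℝ) ^ N * (1 / 4) * ∑ e ∈ Finset.range (N + 1), ((1 : ℝ) / 2) ^ e ≤
      2 ^ N * (1 / 4) * 2 := mul_le_mul_of_nonneg_left h5 (by positivity)
  linarith

/-- the counting bound for a test of small measure -/
lemma cnt_le {e n : ℕ} {U : Set (List Bool)}
    (hU : ∀ t σ, (Code.evaln t (Denumerable.ofNat Code e)
      (Encodable.encode (n, σ))).isSome = true → σ ∈ U)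
    (hm : ∀ S : Finset (List Bool), (∀ σ ∈ S, σ ∈ U) →
      (∀ σ ∈ S, ∀ τ ∈ S, σ <+: τ → σ = τ) → ∑ σ ∈ S, (1 / 2 : ℝ) ^ σ.length ≤ (1 / 2) ^ n)
    (t : ℕ) : okB e n t = true := by
  classical
  let En : List Bool → Prop := fun σ => (Code.evaln t (Denumerable.ofNat Code e)
      (Encodable.encode (n, σ))).isSome = true
  let Cv := (Finset.range (2 ^ t)).filter (fun m => covB e n (sb t m) = true)
  have hl : ∀ m ∈ Cv, ∃ l, l ≤ t ∧ En (bl (sb l m)) := by
    intro m hm
    rw [Finset.mem_filter, covB_iff, sb_len] at hm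
    obtain ⟨_, l, hl, h1⟩ := hm
    rw [sb_take (by omega)] at h1
    exact ⟨l, by omega, h1⟩
  let lm : ℕ → ℕ := fun m => if h : ∃ l, l ≤ t ∧ En (bl (sb l m)) then Nat.find h else 0
  have hlm : ∀ m ∈ Cv, lm m ≤ t ∧ En (bl (sb (lm m) m)) ∧
      ∀ l, l ≤ t → En (bl (sb l m)) → lm m ≤ l := by
    intro m hm
    have h := hl m hm
    simp only [lm]
    rw [dif_pos h]
    exact ⟨(Nat.find_spec h).1, (Nat.find_spec h).2, fun l h1 h2 => Nat.find_min' h ⟨h1, h2⟩⟩
  let sg : ℕ → List Bool := fun m => bl (sb (lm m) m)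
  have hsl : ∀ m, (sg m).length = lm m := by intro m; simp [sg, bl, sb_len]
  let S := Cv.image sg
  have hS1 : ∀ σ ∈ S, σ ∈ U := by
    intro σ hσ
    rw [Finset.mem_image] at hσ
    obtain ⟨m, hm, rfl⟩ := hσ
    exact hU t _ (hlm m hm).2.1
  have hS2 : ∀ σ ∈ S, ∀ τ ∈ S, σ <+: τ → σ = τ := by
    intro σ hσ τ hτ hp
    rw [Finset.mem_image] at hσ hτ
    obtain ⟨m, hm, rfl⟩ := hσ
    obtain ⟨m', hm', rfl⟩ := hτ
    have h1 := hp.length_le
    rw [hsl, hsl] at h1
    have h2 : sg m = (sg m').take (lm m) := by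
      rw [← hsl m]
      exact (List.prefix_iff_eq_take.1 hp)
    have h3 : (sg m').take (lm m) = bl (sb (lm m) m') := by
      simp only [sg, bl]
      rw [← List.map_take, sb_take h1]
    have h4 : lm m' ≤ lm m := by
      apply (hlm m' hm').2.2 _ (hlm m hm).1
      rw [← h3, ← h2]
      exact (hlm m hm).2.1
    rw [h2]
    apply List.take_of_length_le
    rw [hsl]; exact h4
  have h3 := hm S hS1 hS2
  have h4 : Cv.card = ∑ σ ∈ S, (Cv.filter (fun m => sg m = σ)).card :=
    Finset.card_eq_sum_card_image sg Cv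
  have h5 : ∀ σ ∈ S, ((Cv.filter (fun m => sg m = σ)).card : ℝ) ≤ 2 ^ t * (1 / 2) ^ σ.length := by
    intro σ hσ
    rw [Finset.mem_image] at hσ
    obtain ⟨m0, hm0, rfl⟩ := hσ
    have hlt : lm m0 ≤ t := (hlm m0 hm0).1
    have h6 : Cv.filter (fun m => sg m = sg m0) ⊆ (Finset.range (2 ^ t)).filter
        (fun m => (fun x => bl (sb (lm m0) x) = sg m0) (m % 2 ^ (lm m0))) := by
      intro m hm
      rw [Finset.mem_filter] at hm ⊢
      have h7 : lm m = lm m0 := by rw [← hsl, ← hsl, hm.2]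
      refine ⟨(Finset.mem_filter.1 hm.1).1, ?_⟩
      simp only
      rw [sb_mod, ← hm.2, ← h7]
    have h7 := Finset.card_le_card h6
    rw [count_ext (fun x => bl (sb (lm m0) x) = sg m0) hlt] at h7
    have h8 : ((Finset.range (2 ^ lm m0)).filter (fun x => bl (sb (lm m0) x) = sg m0)).card ≤ 1 := by
      rw [Finset.card_le_one]
      intro a ha b hb
      rw [Finset.mem_filter, Finset.mem_range] at ha hb
      exact sb_inj ha.1 hb.1 (bl_sb_inj (by rw [ha.2, hb.2]))
    have h9 : (Cv.filter (fun m => sg m = sg m0)).card ≤ 2 ^ (t - lm m0) := by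
      calc _ ≤ _ := h7
        _ ≤ 2 ^ (t - lm m0) * 1 := Nat.mul_le_mul_left _ h8
        _ = _ := mul_one _
    have h10 : ((Cv.filter (fun m => sg m = sg m0)).card : ℝ) ≤ 2 ^ (t - lm m0) := by
      exact_mod_cast h9
    rw [hsl]
    refine le_trans h10 (le_of_eq ?_)
    have h11 : (2 : ℝ) ^ t = 2 ^ (t - lm m0) * 2 ^ lm m0 := by
      rw [← pow_add]; congr 1; omega
    rw [h11, mul_assoc, ← mul_pow]
    norm_num
  have h6 : (Cv.card : ℝ) ≤ 2 ^ t * (1 / 2) ^ n := by
    rw [h4]
    push_cast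
    calc ∑ σ ∈ S, ((Cv.filter (fun m => sg m = σ)).card : ℝ)
        ≤ ∑ σ ∈ S, 2 ^ t * (1 / 2) ^ σ.length := Finset.sum_le_sum h5
      _ = 2 ^ t * ∑ σ ∈ S, (1 / 2 : ℝ) ^ σ.length := by rw [Finset.mul_sum]
      _ ≤ _ := mul_le_mul_of_nonneg_left h3 (by positivity)
  unfold okB
  apply decide_eq_true
  have h7 : ((2 ^ n * Cv.card : ℕ) : ℝ) ≤ ((2 ^ t : ℕ) : ℝ) := by
    push_cast
    calc (2 : ℝ) ^ n * Cv.card ≤ 2 ^ n * (2 ^ t * (1 / 2) ^ n) :=
          mul_le_mul_of_nonneg_left h6 (by positivity)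
      _ = 2 ^ t * (2 ^ n * (1 / 2) ^ n) := by ring
      _ = 2 ^ t := by rw [← mul_pow]; norm_num
  exact_mod_cast h7

/-- the members of the class are Martin-Löf random -/
theorem rand_ml {X : ℕ → Bool} (hX : X ∈ cl killR) (U : ℕ → Set (List Bool))
    (hU : REPred (fun p : ℕ × List Bool => p.2 ∈ U p.1))
    (hm : ∀ n, ∀ S : Finset (List Bool), (∀ σ ∈ S, σ ∈ U n) →
      (∀ σ ∈ S, ∀ τ ∈ S, σ <+: τ → σ = τ) → ∑ σ ∈ S, (1 / 2 : ℝ) ^ σ.length ≤ (1 / 2) ^ n) :
    ∃ n, ∀ m : ℕ, List.ofFn (fun i : Fin m => X i) ∉ U n := by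
  classical
  obtain ⟨c, hc⟩ := Code.exists_code.1 hU
  have hdom : ∀ n σ, (c.eval (Encodable.encode ((n, σ) : ℕ × List Bool))).Dom ↔ σ ∈ U n := by
    intro n σ
    rw [hc]
    simp only [Encodable.encodek, Part.coe_some, Part.bind_some, Part.map_Dom]
    simp [Part.assert]
  set e := Encodable.encode c with he
  have hce : Denumerable.ofNat Code e = c := Denumerable.ofNat_encode c
  have hstage : ∀ n σ, (∃ t, (Code.evaln t (Denumerable.ofNat Code e)
      (Encodable.encode ((n, σ) : ℕ × List Bool))).isSome = true) ↔ σ ∈ U n := by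
    intro n σ
    rw [← hdom, hce, Part.dom_iff_mem]
    constructor
    · rintro ⟨t, ht⟩
      rw [Option.isSome_iff_exists] at ht
      obtain ⟨y, hy⟩ := ht
      exact ⟨y, Code.evaln_complete.2 ⟨t, hy⟩⟩
    · rintro ⟨y, hy⟩
      obtain ⟨t, ht⟩ := Code.evaln_complete.1 hy
      exact ⟨t, Option.isSome_iff_exists.2 ⟨y, ht⟩⟩
  refine ⟨e + 2, fun m hmem => ?_⟩
  obtain ⟨t0, ht0⟩ := (hstage (e + 2) _).2 hmem
  set t := max t0 (max m e) with ht
  have h1 : t0 ≤ t := le_max_left _ _
  have h2 : m ≤ t := le_trans (le_max_left _ _) (le_max_right _ _)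
  have h3 : e ≤ t := le_trans (le_max_right _ _) (le_max_right _ _)
  have h4 := hX t
  rw [← Bool.not_eq_true] at h4
  apply h4
  rw [killR_iff, pre_length]
  refine ⟨e, by omega, ?_, ?_⟩
  · rw [covB_iff, pre_length]
    refine ⟨m, by omega, ?_⟩
    rw [pre_take _ h2, bl_pre]
    rw [Option.isSome_iff_exists] at ht0 ⊢
    obtain ⟨y, hy⟩ := ht0
    exact ⟨y, Code.evaln_mono h1 hy⟩
  · exact cnt_le (U := U (e + 2)) (fun t σ h => (hstage (e + 2) σ).1 ⟨t, h⟩) (hm (e + 2)) t

end Pool.Agent.L5helper75.PJ
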