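import Pool.Agent.L5helper75.PJ.W
import Pool.Agent.L5helper75.PJ.Rand

set_option autoImplicit false

/-! Effectively closed subclasses of the class of random sequences, and two members with different
initial segments of a computable length. -/

namespace Pool.Agent.L5helper75.PJ

open Nat.Partrec (Code)
open Filter
open Pool.Agent.Helper743
open Pool.Agent.Helper743.AC (geo_le pow_p pre_take)
open Pool.Agent.L5helper75.AP (bt bt_le bt_ex compact_bound)
open Pool.Agent.H166R3.AT

/-- histories: initial segments which have been fixed, and numbers kept out of the enumerated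
set -/
abbrev Hs := List (List ℕ) × List ℕ

def compat (τ β : List ℕ) : Bool := decide (β.take τ.length = τ.take β.length)

noncomputable def killH (h : Hs) (β : List ℕ) : Bool :=
  (killR β || lex h.1 (fun τ => !compat τ β)) || lex h.2 (fun k => mem k (wl β))

lemma killH_iff {h : Hs} {β : List ℕ} : killH h β = false ↔
    killR β = false ∧ (∀ τ ∈ h.1, β.take τ.length = τ.take β.length) ∧
      ∀ k ∈ h.2, k ∉ wl β := by
  unfold killH
  rw [Bool.or_eq_false_iff, Bool.or_eq_false_iff, and_assoc]
  refine and_congr Iff.rfl (and_congr ?_ ?_)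
  · rw [← Bool.not_eq_true, lex_iff]
    push Not
    refine forall₂_congr (fun τ _ => ?_)
    unfold compat
    simp
  · rw [← Bool.not_eq_true, lex_iff]
    push Not
    refine forall₂_congr (fun k _ => ?_)
    rw [Ne, mem_iff]

attribute [local irreducible] wl killR

section comp

variable {α : Type*} [Primcodable α]

lemma killH_c {h : α → Hs} {β : α → List ℕ} (hh : Computable h) (hb : Computable β) :
    Computable (fun a => killH (h a) (β a)) := by
  refine c_or (c_or (killR_c.comp hb) (c_lex (Computable.fst.comp hh) ?_))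
    (c_lex (Computable.snd.comp hh) ?_)
  · have b : Computable (fun q : α × List ℕ => β q.1) := hb.comp Computable.fst
    have t : Computable (fun q : α × List ℕ => q.2) := Computable.snd
    exact c_not (c_eq (Primrec.list_take.to_comp.comp (Computable.list_length.comp t) b)
      (Primrec.list_take.to_comp.comp (Computable.list_length.comp b) t))
  · exact c_mem Computable.snd (wl_p.to_comp.comp (hb.comp Computable.fst))

end comp

attribute [local irreducible] killH

/-- the initial segment of length `t` of the number `m` survives -/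
noncomputable def survB (h : Hs) (t m : ℕ) : Bool := ball (t + 1) (fun k => !killH h (sb k m))

noncomputable def surv (h : Hs) (t : ℕ) : ℕ :=
  ((Finset.range (2 ^ t)).filter (fun m => survB h t m = true)).card

noncomputable def small (h : Hs) (n t : ℕ) : Bool := decide (2 ^ n * surv h t ≤ 2 ^ t)

noncomputable def testB (h : Hs) (n : ℕ) (σ : List Bool) : Bool :=
  (small h n σ.length && ball σ.length (fun t' => !small h n t')) &&
    bex (2 ^ σ.length) (fun m => survB h σ.length m && decide (bl (sb σ.length m) = σ))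

lemma survB_iff {h : Hs} {t m : ℕ} : survB h t m = true ↔ ∀ k ≤ t, killH h (sb k m) = false := by
  unfold survB
  rw [ball_iff]
  constructor
  · intro h1 k hk
    have := h1 k (by omega)
    simpa using this
  · intro h1 k hk
    rw [h1 k (by omega)]
    rfl

section comp

variable {α : Type*} [Primcodable α]

lemma survB_c {h : α → Hs} {t m : α → ℕ} (hh : Computable h) (ht : Computable t)
    (hm : Computable m) : Computable (fun a => survB (h a) (t a) (m a)) := by
  refine c_ball (Computable.succ.comp ht) ?_
  exact c_not (killH_c (hh.comp Computable.fst) (sb_p.to_comp.comp Computable.snd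
    (hm.comp Computable.fst)))

lemma surv_c {h : α → Hs} {t : α → ℕ} (hh : Computable h) (ht : Computable t) :
    Computable (fun a => surv (h a) (t a)) := by
  refine c_count (c_pow (Computable.const 2) ht) ?_
  exact survB_c (hh.comp Computable.fst) (ht.comp Computable.fst) Computable.snd

lemma small_c {h : α → Hs} {n t : α → ℕ} (hh : Computable h) (hn : Computable n)
    (ht : Computable t) : Computable (fun a => small (h a) (n a) (t a)) :=
  c_le (c_mul (c_pow (Computable.const 2) hn) (surv_c hh ht)) (c_pow (Computable.const 2) ht)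

lemma testB_c {h : α → Hs} {n : α → ℕ} {σ : α → List Bool} (hh : Computable h)
    (hn : Computable n) (hs : Computable σ) :
    Computable (fun a => testB (h a) (n a) (σ a)) := by
  have l := Computable.list_length.comp hs
  refine c_and (c_and (small_c hh hn l) (c_ball l ?_)) (c_bex (c_pow (Computable.const 2) l) ?_)
  · exact c_not (small_c (hh.comp Computable.fst) (hn.comp Computable.fst) Computable.snd)
  · have l2 : Computable (fun q : α × ℕ => (σ q.1).length) := l.comp Computable.fst
    exact c_and (survB_c (hh.comp Computable.fst) l2 Computable.snd)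
      (c_eq (bl_p.to_comp.comp (sb_p.to_comp.comp l2 Computable.snd)) (hs.comp Computable.fst))

end comp

lemma c0_ex : ∃ c : Code, ∀ (h : Hs) (n : ℕ) (σ : List Bool),
    (c.eval (Nat.pair (Encodable.encode h) (Encodable.encode (n, σ)))).Dom ↔
      testB h n σ = true := by
  have h1 : Computable (fun z : ℕ => (Encodable.decode (α := Hs) z.unpair.1).getD ([], [])) :=
    Computable.option_getD (Computable.decode.comp (Computable.fst.comp Computable.unpair))
      (Computable.const _)
  have h2 : Computable (fun z : ℕ =>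
      (Encodable.decode (α := ℕ × List Bool) z.unpair.2).getD (0, [])) :=
    Computable.option_getD (Computable.decode.comp (Computable.snd.comp Computable.unpair))
      (Computable.const _)
  have h3 := testB_c h1 (Computable.fst.comp h2) (Computable.snd.comp h2)
  have h4 : Partrec (fun z : ℕ => (cond (testB
      ((Encodable.decode (α := Hs) z.unpair.1).getD ([], []))
      ((Encodable.decode (α := ℕ × List Bool) z.unpair.2).getD (0, [])).1
      ((Encodable.decode (α := ℕ × List Bool) z.unpair.2).getD (0, [])).2)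
      (Part.some 0) Part.none : Part ℕ)) :=
    Partrec.cond h3 (Computable.const 0).partrec Partrec.none
  obtain ⟨c, hc⟩ := Code.exists_code.1 (Partrec.nat_iff.1 h4)
  refine ⟨c, fun h n σ => ?_⟩
  rw [hc]
  simp only [Nat.unpair_pair, Encodable.encodek, Option.getD_some]
  cases testB h n σ <;> simp

noncomputable def c0 : Code := c0_ex.choose

lemma c0_spec (h : Hs) (n : ℕ) (σ : List Bool) :
    (c0.eval (Nat.pair (Encodable.encode h) (Encodable.encode (n, σ)))).Dom ↔
      testB h n σ = true := c0_ex.choose_spec h n σ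

/-- the index of the test attached to a history -/
noncomputable def ei (h : Hs) : ℕ := Encodable.encode (Code.curry c0 (Encodable.encode h))

lemma ei_c : Computable ei := by
  have h1 : Primrec (fun h : Hs => Code.curry c0 (Encodable.encode h)) :=
    Code.primrec₂_curry.comp (Primrec.const c0) Primrec.encode
  exact (Primrec.encode.comp h1).to_comp

lemma ei_spec (h : Hs) (n : ℕ) (σ : List Bool) :
    (∃ t, (Code.evaln t (Denumerable.ofNat Code (ei h))
      (Encodable.encode ((n, σ) : ℕ × List Bool))).isSome = true) ↔ testB h n σ = true := by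
  unfold ei
  rw [Denumerable.ofNat_encode, ← c0_spec, ← Code.eval_curry, Part.dom_iff_mem]
  constructor
  · rintro ⟨t, ht⟩
    rw [Option.isSome_iff_exists] at ht
    obtain ⟨y, hy⟩ := ht
    exact ⟨y, Code.evaln_complete.2 ⟨t, hy⟩⟩
  · rintro ⟨y, hy⟩
    obtain ⟨t, ht⟩ := Code.evaln_complete.1 hy
    exact ⟨t, Option.isSome_iff_exists.2 ⟨y, ht⟩⟩

noncomputable def loc (h : Hs) : ℕ := ei h + 3

lemma loc_c : Computable loc := c_add ei_c (Computable.const 3)

lemma surv_of {h : Hs} {X : ℕ → Bool} (hX : X ∈ cl (killH h)) {t m : ℕ}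
    (hm : sb t m = pre (xf X) t) : survB h t m = true := by
  rw [survB_iff]
  intro k hk
  rw [← sb_take hk, hm, pre_take _ hk]
  exact hX k

lemma not_small {h : Hs} (hne : (cl (killH h)).Nonempty) (t : ℕ) :
    small h (ei h + 2) t = false := by
  classical
  by_contra hsm
  rw [Bool.not_eq_false] at hsm
  have hex : ∃ t, small h (ei h + 2) t = true := ⟨t, hsm⟩
  set e := ei h with he
  set t0 := Nat.find hex with ht0
  have h1 : small h (e + 2) t0 = true := Nat.find_spec hex
  have h2 : ∀ t' < t0, small h (e + 2) t' = false := fun t' ht' => by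
    have := Nat.find_min hex ht'
    rwa [Bool.not_eq_true] at this
  obtain ⟨X, hX⟩ := hne
  -- members of the test have length `t0`
  have hlen : ∀ σ, testB h (e + 2) σ = true → σ.length = t0 ∧ ∃ m < 2 ^ t0,
      survB h t0 m = true ∧ bl (sb t0 m) = σ := by
    intro σ hσ
    unfold testB at hσ
    rw [Bool.and_eq_true, Bool.and_eq_true, ball_iff, bex_iff] at hσ
    obtain ⟨⟨a1, a2⟩, m, hm, a3⟩ := hσ
    have h3 : σ.length = t0 := by
      rcases lt_trichotomy σ.length t0 with h4 | h4 | h4
      · rw [h2 _ h4] at a1; exact absurd a1 (by simp)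
      · exact h4
      · have := a2 t0 h4
        rw [h1] at this; exact absurd this (by simp)
    rw [Bool.and_eq_true, decide_eq_true_iff] at a3
    rw [h3] at hm a3
    exact ⟨h3, m, hm, a3.1, a3.2⟩
  have hcard : 2 ^ (e + 2) * surv h t0 ≤ 2 ^ t0 := by
    unfold small at h1
    exact of_decide_eq_true h1
  have hok : ∀ t, okB e (e + 2) t = true := by
    intro t
    refine cnt_le (U := {σ | testB h (e + 2) σ = true})
      (fun t σ h => (ei_spec _ _ σ).1 ⟨t, h⟩) ?_ t
    intro S hS _
    have h3 : S.card ≤ surv h t0 := by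
      have h4 : S ⊆ ((Finset.range (2 ^ t0)).filter (fun m => survB h t0 m = true)).image
          (fun m => bl (sb t0 m)) := by
        intro σ hσ
        obtain ⟨_, m, hm, h5, h6⟩ := hlen σ (hS σ hσ)
        rw [Finset.mem_image]
        exact ⟨m, by rw [Finset.mem_filter, Finset.mem_range]; exact ⟨hm, h5⟩, h6⟩
      exact le_trans (Finset.card_le_card h4) Finset.card_image_le
    have h4 : ∑ σ ∈ S, (1 / 2 : ℝ) ^ σ.length = S.card * (1 / 2) ^ t0 := by
      rw [Finset.sum_congr rfl (fun σ hσ => by rw [(hlen σ (hS σ hσ)).1]), Finset.sum_const,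
        nsmul_eq_mul]
    rw [h4]
    have h5 : (S.card : ℝ) ≤ surv h t0 := by exact_mod_cast h3
    have h6 : (2 : ℝ) ^ (e + 2) * surv h t0 ≤ 2 ^ t0 := by exact_mod_cast hcard
    have h7 : (2 : ℝ) ^ (e + 2) * (1 / 2) ^ (e + 2) = 1 := by rw [← mul_pow]; norm_num
    have h8 : (2 : ℝ) ^ t0 * (1 / 2) ^ t0 = 1 := by rw [← mul_pow]; norm_num
    have h9 : (0 : ℝ) < (1 / 2) ^ t0 := by positivity
    have h10 : (0 : ℝ) < (1 / 2) ^ (e + 2) := by positivity
    calc (S.card : ℝ) * (1 / 2) ^ t0 ≤ surv h t0 * (1 / 2) ^ t0 :=
          mul_le_mul_of_nonneg_right h5 h9.le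
      _ = (1 / 2) ^ (e + 2) * (1 / 2) ^ t0 * (2 ^ (e + 2) * surv h t0) := by
          have : (1 / 2 : ℝ) ^ (e + 2) * (1 / 2) ^ t0 * (2 ^ (e + 2) * surv h t0) =
            (2 ^ (e + 2) * (1 / 2) ^ (e + 2)) * (surv h t0 * (1 / 2) ^ t0) := by ring
          rw [this, h7, one_mul]
      _ ≤ (1 / 2) ^ (e + 2) * (1 / 2) ^ t0 * 2 ^ t0 :=
          mul_le_mul_of_nonneg_left h6 (by positivity)
      _ = (1 / 2) ^ (e + 2) * (2 ^ t0 * (1 / 2) ^ t0) := by ring
      _ = _ := by rw [h8, mul_one]
  -- the initial segment of `X` is in the test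
  obtain ⟨m, hm, hm2⟩ := ex_sb X t0
  have hin : testB h (e + 2) (bl (pre (xf X) t0)) = true := by
    have hl : (bl (pre (xf X) t0)).length = t0 := by simp [bl]
    unfold testB
    rw [hl, h1, Bool.true_and, Bool.and_eq_true, ball_iff, bex_iff]
    refine ⟨fun t' ht' => by rw [h2 t' ht']; rfl, m, hm, ?_⟩
    rw [Bool.and_eq_true, decide_eq_true_iff, hm2]
    exact ⟨surv_of hX hm2, rfl⟩
  obtain ⟨t1, ht1⟩ := (ei_spec h (e + 2) _).2 hin
  set t := max t1 (max t0 e) with ht
  have g1 : t1 ≤ t := le_max_left _ _
  have g2 : t0 ≤ t := le_trans (le_max_left _ _) (le_max_right _ _)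
  have g3 : e ≤ t := le_trans (le_max_right _ _) (le_max_right _ _)
  have h4 := (killH_iff.1 (hX t)).1
  rw [← Bool.not_eq_true] at h4
  apply h4
  rw [killR_iff, pre_length]
  refine ⟨e, by omega, ?_, hok t⟩
  rw [covB_iff, pre_length]
  refine ⟨t0, by omega, ?_⟩
  rw [pre_take _ g2]
  rw [Option.isSome_iff_exists] at ht1 ⊢
  obtain ⟨y, hy⟩ := ht1
  exact ⟨y, Code.evaln_mono g1 hy⟩

/-- two members of a nonempty subclass differ below the computable bound -/
theorem two_members {h : Hs} (hne : (cl (killH h)).Nonempty) :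
    ∃ X ∈ cl (killH h), ∃ X' ∈ cl (killH h), pre (xf X) (loc h) ≠ pre (xf X') (loc h) := by
  classical
  by_contra hcon
  push Not at hcon
  obtain ⟨X0, hX0⟩ := hne
  set l := loc h with hl
  have hT : {X | pre (xf X) l ≠ pre (xf X0) l} ∩ cl (killH h) = ∅ := by
    rw [Set.eq_empty_iff_forall_notMem]
    rintro X ⟨h1, h2⟩
    exact h1 (hcon X h2 X0 hX0)
  obtain ⟨N, hN⟩ := cl_bound (l := l) (fun a b hab ha => by
    simp only [Set.mem_setOf_eq] at ha ⊢
    rw [← pre_xf_congr hab]; exact ha) hT
  set t := max N l with ht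
  have hNt : N ≤ t := le_max_left _ _
  have hlt : l ≤ t := le_max_right _ _
  obtain ⟨m0, hm0, hm0'⟩ := ex_sb X0 l
  have h1 : surv h t ≤ 2 ^ (t - l) := by
    have h2 : (Finset.range (2 ^ t)).filter (fun m => survB h t m = true) ⊆
        (Finset.range (2 ^ t)).filter (fun m => (fun x => x = m0) (m % 2 ^ l)) := by
      intro m hm
      rw [Finset.mem_filter] at hm ⊢
      refine ⟨hm.1, ?_⟩
      have h3 : sb l m = pre (xf X0) l := by
        by_contra hne
        have h4 : nX m ∈ {X | pre (xf X) l ≠ pre (xf X0) l} := by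
          simp only [Set.mem_setOf_eq]
          rw [← sb_pre]; exact hne
        obtain ⟨n, hn, h5⟩ := hN (nX m) h4
        rw [← sb_pre, survB_iff.1 hm.2 n (by omega)] at h5
        exact absurd h5 (by simp)
      exact sb_inj (Nat.mod_lt _ (by positivity)) hm0 (by rw [sb_mod, h3, hm0'])
    have h3 := Finset.card_le_card h2
    rw [count_ext (fun x => x = m0) hlt] at h3
    have h4 : ((Finset.range (2 ^ l)).filter (fun x => x = m0)).card ≤ 1 := by
      rw [Finset.card_le_one]
      intro a ha b hb
      rw [Finset.mem_filter] at ha hb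
      rw [ha.2, hb.2]
    calc surv h t ≤ _ := h3
      _ ≤ 2 ^ (t - l) * 1 := Nat.mul_le_mul_left _ h4
      _ = _ := mul_one _
  have h2 := not_small ⟨X0, hX0⟩ t
  unfold small at h2
  rw [decide_eq_false_iff_not] at h2
  apply h2
  calc 2 ^ (ei h + 2) * surv h t ≤ 2 ^ (ei h + 2) * 2 ^ (t - l) := Nat.mul_le_mul_left _ h1
    _ = 2 ^ (ei h + 2 + (t - l)) := (pow_add _ _ _).symm
    _ ≤ 2 ^ t := Nat.pow_le_pow_right (by norm_num) (by
        have : l = ei h + 3 := rfl
        omega)

end Pool.Agent.L5helper75.PJ
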