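import Pool.Agent.L5helper75.PJ.Cls

set_option autoImplicit false

/-! Decoding bits which are coded by the leftmost and the rightmost surviving strings. -/

namespace Pool.Agent.L5helper75.PJ

open Nat.Partrec (Code)
open Filter
open Pool.Agent.Helper743
open Pool.Agent.Helper743.AC (geo_le pow_p pre_take)
open Pool.Agent.L5helper75.AP (bt bt_le bt_ex compact_bound)
open Pool.Agent.H166R3.AT

/-- the least number below `N` with the property, or `N` -/
def fidx (N : ℕ) (f : ℕ → Bool) : ℕ :=
  ((Finset.range N).filter (fun n => ball (n + 1) (fun j => !f j) = true)).card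

lemma fidx_eq {N i : ℕ} {f : ℕ → Bool} (hi : i ≤ N) (h1 : i < N → f i = true)
    (h2 : ∀ j < i, f j = false) : fidx N f = i := by
  unfold fidx
  have h : (Finset.range N).filter (fun n => ball (n + 1) (fun j => !f j) = true) =
      Finset.range i := by
    ext n
    rw [Finset.mem_filter, Finset.mem_range, Finset.mem_range, ball_iff]
    constructor
    · rintro ⟨hn, h⟩
      by_contra hlt
      push Not at hlt
      have h3 := h i (by omega)
      rw [h1 (by omega)] at h3
      simp at h3
    · intro hn
      refine ⟨by omega, fun j hj => ?_⟩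
      rw [h2 j (by omega)]; rfl
  rw [h, Finset.card_range]

lemma fidx_cases (N : ℕ) (f : ℕ → Bool) : (fidx N f < N ∧ f (fidx N f) = true ∧
      ∀ j < fidx N f, f j = false) ∨ (fidx N f = N ∧ ∀ j < N, f j = false) := by
  classical
  by_cases h : ∃ i, i < N ∧ f i = true
  · left
    have h1 := Nat.find_spec h
    have h2 : fidx N f = Nat.find h := fidx_eq h1.1.le (fun _ => h1.2) (fun j hj => by
      have := Nat.find_min h hj
      by_contra h3
      rw [Bool.not_eq_false] at h3
      exact this ⟨by omega, h3⟩)
    rw [h2]
    refine ⟨h1.1, h1.2, fun j hj => ?_⟩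
    by_contra h3
    rw [Bool.not_eq_false] at h3
    exact Nat.find_min h hj ⟨by omega, h3⟩
  · right
    push Not at h
    have h4 : ∀ j < N, f j = false := fun j hj => by
      have := h j hj
      rwa [Ne, Bool.not_eq_true] at this
    exact ⟨fidx_eq (le_refl N) (fun h5 => absurd h5 (lt_irrefl _)) h4, h4⟩

lemma fidx_c {α : Type*} [Primcodable α] {N : α → ℕ} {f : α → ℕ → Bool} (hN : Computable N)
    (hf : Computable₂ f) : Computable (fun a => fidx (N a) (f a)) := by
  refine c_count hN ?_
  refine c_ball (Computable.succ.comp Computable.snd) ?_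
  exact c_not (hf.comp (Computable.fst.comp Computable.fst) Computable.snd)

/-- the string of length `l` with the number `m` is dead at the stage `n` -/
noncomputable def deadB (h : Hs) (l m n : ℕ) : Bool :=
  ball (2 ^ n) (fun m' => !(decide (m' % 2 ^ l = m)) ||
    bex (n + 1) (fun k => killH h (sb k m')))

noncomputable def ldead (h : Hs) (l mx n : ℕ) : Bool := ball mx (fun m => deadB h l m n)

noncomputable def rdead (h : Hs) (l mx n : ℕ) : Bool :=
  ball (2 ^ l) (fun m => !(decide (mx < m)) || deadB h l m n)

/-- the number of the initial segment of length `l` -/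
def num (β : List ℕ) (l : ℕ) : ℕ := fidx (2 ^ l) (fun m => decide (sb l m = β.take l))

noncomputable def cnd (h : Hs) (l mx n : ℕ) : Bool :=
  decide (l ≤ n) && (ldead h l mx n || rdead h l mx n)

noncomputable def decB (h : Hs) (β : List ℕ) : Option Bool :=
  cond (decide (loc h ≤ β.length) &&
      decide (fidx (β.length + 1) (cnd h (loc h) (num β (loc h))) < β.length + 1))
    (some (!ldead h (loc h) (num β (loc h))
      (fidx (β.length + 1) (cnd h (loc h) (num β (loc h))))))
    none

section comp

variable {α : Type*} [Primcodable α]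

lemma deadB_c {h : α → Hs} {l m n : α → ℕ} (hh : Computable h) (hl : Computable l)
    (hm : Computable m) (hn : Computable n) :
    Computable (fun a => deadB (h a) (l a) (m a) (n a)) := by
  refine c_ball (c_pow (Computable.const 2) hn) (c_or (c_not (c_eq (c_mod Computable.snd
    (c_pow (Computable.const 2) (hl.comp Computable.fst))) (hm.comp Computable.fst)))
    (c_bex (Computable.succ.comp (hn.comp Computable.fst)) ?_))
  exact killH_c (hh.comp (Computable.fst.comp Computable.fst)) (sb_p.to_comp.comp
    Computable.snd (Computable.snd.comp Computable.fst))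

lemma ldead_c {h : α → Hs} {l m n : α → ℕ} (hh : Computable h) (hl : Computable l)
    (hm : Computable m) (hn : Computable n) :
    Computable (fun a => ldead (h a) (l a) (m a) (n a)) :=
  c_ball hm (deadB_c (hh.comp Computable.fst) (hl.comp Computable.fst) Computable.snd
    (hn.comp Computable.fst))

lemma rdead_c {h : α → Hs} {l m n : α → ℕ} (hh : Computable h) (hl : Computable l)
    (hm : Computable m) (hn : Computable n) :
    Computable (fun a => rdead (h a) (l a) (m a) (n a)) :=
  c_ball (c_pow (Computable.const 2) hl) (c_or (c_not (c_lt (hm.comp Computable.fst)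
    Computable.snd)) (deadB_c (hh.comp Computable.fst) (hl.comp Computable.fst) Computable.snd
      (hn.comp Computable.fst)))

lemma num_c {β : α → List ℕ} {l : α → ℕ} (hb : Computable β) (hl : Computable l) :
    Computable (fun a => num (β a) (l a)) :=
  fidx_c (c_pow (Computable.const 2) hl) (c_eq (sb_p.to_comp.comp (hl.comp Computable.fst)
    Computable.snd) (Primrec.list_take.to_comp.comp (hl.comp Computable.fst)
      (hb.comp Computable.fst)))

lemma cnd_c {h : α → Hs} {l m n : α → ℕ} (hh : Computable h) (hl : Computable l)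
    (hm : Computable m) (hn : Computable n) :
    Computable (fun a => cnd (h a) (l a) (m a) (n a)) :=
  c_and (c_le hl hn) (c_or (ldead_c hh hl hm hn) (rdead_c hh hl hm hn))

lemma decB_c {h : α → Hs} {β : α → List ℕ} (hh : Computable h) (hb : Computable β) :
    Computable (fun a => decB (h a) (β a)) := by
  have l := loc_c.comp hh
  have bl := Computable.list_length.comp hb
  have s := Computable.succ.comp bl
  have nm := num_c hb l
  have ix : Computable (fun a => fidx ((β a).length + 1) (cnd (h a) (loc (h a))
      (num (β a) (loc (h a))))) :=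
    fidx_c s (cnd_c (hh.comp Computable.fst) (l.comp Computable.fst) (nm.comp Computable.fst)
      Computable.snd)
  exact Computable.cond (c_and (c_le l bl) (c_lt ix s))
    (Computable.option_some.comp (c_not (ldead_c hh l nm ix))) (Computable.const none)

end comp

lemma deadB_iff {h : Hs} {l m n : ℕ} : deadB h l m n = true ↔
    ∀ m' < 2 ^ n, m' % 2 ^ l = m → ∃ k ≤ n, killH h (sb k m') = true := by
  unfold deadB
  rw [ball_iff]
  refine forall₂_congr (fun m' _ => ?_)
  rw [Bool.or_eq_true, bex_iff]
  constructor
  · intro h1 h2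
    rcases h1 with h1 | ⟨k, hk, h3⟩
    · rw [h2] at h1; simp at h1
    · exact ⟨k, by omega, h3⟩
  · intro h1
    by_cases h2 : m' % 2 ^ l = m
    · right
      obtain ⟨k, hk, h3⟩ := h1 h2
      exact ⟨k, by omega, h3⟩
    · left
      simp [h2]

lemma ldead_iff {h : Hs} {l mx n : ℕ} : ldead h l mx n = true ↔
    ∀ m < mx, deadB h l m n = true := by
  unfold ldead; rw [ball_iff]

lemma rdead_iff {h : Hs} {l mx n : ℕ} : rdead h l mx n = true ↔
    ∀ m < 2 ^ l, mx < m → deadB h l m n = true := by
  unfold rdead
  rw [ball_iff]
  refine forall₂_congr (fun m _ => ?_)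
  by_cases h1 : mx < m <;> simp [h1]

lemma cnd_iff {h : Hs} {l mx n : ℕ} : cnd h l mx n = true ↔
    l ≤ n ∧ (ldead h l mx n = true ∨ rdead h l mx n = true) := by
  unfold cnd
  rw [Bool.and_eq_true, Bool.or_eq_true, decide_eq_true_iff]

lemma decB_some {h : Hs} {β : List ℕ} {b : Bool} : decB h β = some b ↔
    loc h ≤ β.length ∧ fidx (β.length + 1) (cnd h (loc h) (num β (loc h))) < β.length + 1 ∧
      b = !ldead h (loc h) (num β (loc h))
        (fidx (β.length + 1) (cnd h (loc h) (num β (loc h)))) := by
  unfold decB
  by_cases h1 : loc h ≤ β.length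
  · by_cases h2 : fidx (β.length + 1) (cnd h (loc h) (num β (loc h))) < β.length + 1
    · rw [decide_eq_true h1, decide_eq_true h2]
      simp only [Bool.and_self, cond_true, Option.some.injEq]
      constructor
      · intro h3; exact ⟨h1, h2, h3.symm⟩
      · intro h3; exact h3.2.2.symm
    · rw [decide_eq_true h1, decide_eq_false h2]
      simp only [Bool.and_false, cond_false]
      constructor
      · intro h3; simp at h3
      · intro h3; exact absurd h3.2.1 h2
  · rw [decide_eq_false h1]
    simp only [Bool.false_and, cond_false]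
    constructor
    · intro h3; simp at h3
    · intro h3; exact absurd h3.1 h1

lemma num_prefix {β β' : List ℕ} (h : β <+: β') {l : ℕ} (hl : l ≤ β.length) :
    num β' l = num β l := by
  unfold num
  have h1 : β'.take l = β.take l := by
    obtain ⟨ρ, rfl⟩ := h
    rw [List.take_append_of_le_length hl]
  rw [h1]

lemma decB_mono {h : Hs} {β β' : List ℕ} (hp : β <+: β') {b : Bool} (hb : decB h β = some b) :
    decB h β' = some b := by
  rw [decB_some] at hb ⊢
  obtain ⟨h1, h2, h3⟩ := hb
  have hl := hp.length_le
  have hn := num_prefix hp h1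
  have hi : fidx (β'.length + 1) (cnd h (loc h) (num β (loc h))) =
      fidx (β.length + 1) (cnd h (loc h) (num β (loc h))) := by
    rcases fidx_cases (β.length + 1) (cnd h (loc h) (num β (loc h))) with ⟨a1, a2, a3⟩ | ⟨a1, _⟩
    · exact fidx_eq (by omega) (fun _ => a2) a3
    · omega
  rw [hn, hi]
  exact ⟨by omega, by omega, h3⟩

/-- decoding along a string, with the list `L` as an approximation of the enumerated set -/
noncomputable def dec (β L : List ℕ) (w : ℕ) : Option (Hs × List Bool) :=
  Nat.rec (some (([], []), [])) (fun w o => o.bind (fun q =>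
    (decB (q.1.1, cond (mem w L) q.1.2 (w :: q.1.2)) β).map (fun b =>
      ((β.take (loc (q.1.1, cond (mem w L) q.1.2 (w :: q.1.2))) :: q.1.1,
        cond (mem w L) q.1.2 (w :: q.1.2)), q.2 ++ [b])))) w

lemma dec_zero (β L : List ℕ) : dec β L 0 = some (([], []), []) := rfl

lemma dec_succ (β L : List ℕ) (w : ℕ) : dec β L (w + 1) = (dec β L w).bind (fun q =>
    (decB (q.1.1, cond (mem w L) q.1.2 (w :: q.1.2)) β).map (fun b =>
      ((β.take (loc (q.1.1, cond (mem w L) q.1.2 (w :: q.1.2))) :: q.1.1,
        cond (mem w L) q.1.2 (w :: q.1.2)), q.2 ++ [b]))) := rfl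

section comp

variable {α : Type*} [Primcodable α]

attribute [local irreducible] decB loc

lemma dec_c {β L : α → List ℕ} {w : α → ℕ} (hb : Computable β) (hL : Computable L)
    (hw : Computable w) : Computable (fun a => dec (β a) (L a) (w a)) := by
  have hstep : Computable₂ (fun (a : α) (z : ℕ × Option (Hs × List Bool)) =>
      z.2.bind (fun q =>
    (decB (q.1.1, cond (mem z.1 (L a)) q.1.2 (z.1 :: q.1.2)) (β a)).map (fun b =>
      (((β a).take (loc (q.1.1, cond (mem z.1 (L a)) q.1.2 (z.1 :: q.1.2))) :: q.1.1,
        cond (mem z.1 (L a)) q.1.2 (z.1 :: q.1.2)), q.2 ++ [b])))) := by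
    have g1 : Computable (fun v : α × (ℕ × Option (Hs × List Bool)) => v.2.2) :=
      Computable.snd.comp Computable.snd
    refine Computable.option_bind g1 ?_
    -- arguments: `((a, z), q)`
    have a0 : Computable (fun v : (α × (ℕ × Option (Hs × List Bool))) × (Hs × List Bool) =>
        v.1.1) := Computable.fst.comp Computable.fst
    have z1 : Computable (fun v : (α × (ℕ × Option (Hs × List Bool))) × (Hs × List Bool) =>
        v.1.2.1) := Computable.fst.comp (Computable.snd.comp Computable.fst)
    have q11 : Computable (fun v : (α × (ℕ × Option (Hs × List Bool))) × (Hs × List Bool) =>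
        v.2.1.1) := Computable.fst.comp (Computable.fst.comp Computable.snd)
    have q12 : Computable (fun v : (α × (ℕ × Option (Hs × List Bool))) × (Hs × List Bool) =>
        v.2.1.2) := Computable.snd.comp (Computable.fst.comp Computable.snd)
    have q2 : Computable (fun v : (α × (ℕ × Option (Hs × List Bool))) × (Hs × List Bool) =>
        v.2.2) := Computable.snd.comp Computable.snd
    have ks : Computable (fun v : (α × (ℕ × Option (Hs × List Bool))) × (Hs × List Bool) =>
        cond (mem v.1.2.1 (L v.1.1)) v.2.1.2 (v.1.2.1 :: v.2.1.2)) :=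
      Computable.cond (c_mem z1 (hL.comp a0)) q12 (Computable.list_cons.comp z1 q12)
    have hp : Computable (fun v : (α × (ℕ × Option (Hs × List Bool))) × (Hs × List Bool) =>
        ((v.2.1.1, cond (mem v.1.2.1 (L v.1.1)) v.2.1.2 (v.1.2.1 :: v.2.1.2)) : Hs)) :=
      q11.pair ks
    refine Computable.option_map (decB_c hp (hb.comp a0)) ?_
    have F : Computable (Prod.fst : ((α × (ℕ × Option (Hs × List Bool))) × (Hs × List Bool)) ×
        Bool → (α × (ℕ × Option (Hs × List Bool))) × (Hs × List Bool)) := Computable.fst
    have t1 := Primrec.list_take.to_comp.comp (loc_c.comp (hp.comp F)) ((hb.comp a0).comp F)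
    have t2 := Computable.list_cons.comp t1 (q11.comp F)
    exact (t2.pair (ks.comp F)).pair (Computable.list_concat.comp (q2.comp F) Computable.snd)
  exact Computable.nat_rec hw (Computable.const _) hstep

end comp

lemma dec_congr {β L L' : List ℕ} {w : ℕ} (h : ∀ k < w, k ∈ L ↔ k ∈ L') :
    dec β L w = dec β L' w := by
  induction w with
  | zero => rfl
  | succ w ih =>
    rw [dec_succ, dec_succ, ih (fun k hk => h k (by omega))]
    have h1 : mem w L = mem w L' := by
      rw [Bool.eq_iff_iff, mem_iff, mem_iff]
      exact h w (by omega)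
    rw [h1]

lemma dec_mono {β β' L : List ℕ} {w : ℕ} (hp : β <+: β') {q : Hs × List Bool}
    (hq : dec β L w = some q) : dec β' L w = some q := by
  induction w generalizing q with
  | zero => exact hq
  | succ w ih =>
    rw [dec_succ, Option.bind_eq_some_iff] at hq ⊢
    obtain ⟨q', h1, h2⟩ := hq
    refine ⟨q', ih h1, ?_⟩
    rw [Option.map_eq_some_iff] at h2 ⊢
    obtain ⟨b, h3, h4⟩ := h2
    refine ⟨b, decB_mono hp h3, ?_⟩
    rw [← h4]
    have h5 := (decB_some.1 h3).1
    have h6 : β'.take (loc (q'.1.1, cond (mem w L) q'.1.2 (w :: q'.1.2))) =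
        β.take (loc (q'.1.1, cond (mem w L) q'.1.2 (w :: q'.1.2))) := by
      obtain ⟨ρ, rfl⟩ := hp
      rw [List.take_append_of_le_length h5]
    rw [h6]

lemma dec_len {β L : List ℕ} {w : ℕ} {q : Hs × List Bool} (hq : dec β L w = some q) :
    q.2.length = w := by
  induction w generalizing q with
  | zero =>
    rw [dec_zero] at hq
    rw [← Option.some.inj hq]; rfl
  | succ w ih =>
    rw [dec_succ, Option.bind_eq_some_iff] at hq
    obtain ⟨q', h1, h2⟩ := hq
    rw [Option.map_eq_some_iff] at h2
    obtain ⟨b, _, h4⟩ := h2
    rw [← h4]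
    simp [ih h1]

/-- the approximation of the coded set along a string -/
noncomputable def stp (β : List ℕ) (w : ℕ) : Option (List Bool) :=
  (dec β (wl β) w).map Prod.snd

lemma stp_c : Computable₂ stp := by
  have h1 : Computable (fun q : List ℕ × ℕ => dec q.1 (wl q.1) q.2) :=
    dec_c Computable.fst (wl_p.to_comp.comp Computable.fst) Computable.snd
  exact Computable.option_map h1 (Computable.snd.comp Computable.snd)

lemma stp_len (β : List ℕ) (w : ℕ) (ρ : List Bool) (h : stp β w = some ρ) : ρ.length = w := by
  unfold stp at h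
  rw [Option.map_eq_some_iff] at h
  obtain ⟨q, h1, h2⟩ := h
  rw [← h2]
  exact dec_len h1

end Pool.Agent.L5helper75.PJ
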