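import Pool.Agent.Helper743.KTFin
import Pool.Agent.H166R3.AT.CT

set_option autoImplicit false

/-! K-triviality relative to an oracle, for sets which have partial approximations computed from
the prefixes of the oracle with finite total cost of the changes. -/

namespace Pool.Agent.L5helper75.PJ

open Nat.Partrec (Code)
open Filter
open Pool.Agent.Helper743
open Pool.Agent.Helper743.AC (wN massN kk kk_p wR massR MR wR_mono wR_nonneg massR_mono geo_le
  conv conv_pre pre_conv ev_code kk_le_iff DBl DBl_p DBl_encode)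
open Pool.Agent.Helper743.PR (evT evR LS LS_p LS_encode evR_spec)
open Pool.Agent.H166R3.AT

section gen

variable (st : List ℕ → ℕ → Option (List Bool))

/-- requests along a string -/
noncomputable def HitB (i c : ℕ) (β : List ℕ) (ρ : List Bool) (k : ℕ) : Bool :=
  decide (Encodable.encode ρ + 2 ≤ k) ||
    ((decide (ρ.length ≤ β.length) && decide (st β ρ.length = some ρ)) &&
      (decide (kk i β ρ.length ≤ β.length) && decide (kk i β ρ.length + c ≤ k)))

lemma HitB_iff {i c : ℕ} {β : List ℕ} {ρ : List Bool} {k : ℕ} : HitB st i c β ρ k = true ↔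
    Encodable.encode ρ + 2 ≤ k ∨ ((ρ.length ≤ β.length ∧ st β ρ.length = some ρ) ∧
      (kk i β ρ.length ≤ β.length ∧ kk i β ρ.length + c ≤ k)) := by
  unfold HitB
  simp only [Bool.or_eq_true, Bool.and_eq_true, decide_eq_true_eq]

lemma HitB_mono {i c : ℕ} {β : List ℕ} {ρ : List Bool} {k k' : ℕ} (h : k ≤ k')
    (hh : HitB st i c β ρ k = true) : HitB st i c β ρ k' = true := by
  rw [HitB_iff] at *
  rcases hh with h1 | ⟨h1, h2, h3⟩
  · exact Or.inl (le_trans h1 h)
  · exact Or.inr ⟨h1, h2, le_trans h3 h⟩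

lemma HitB_c (hst : Computable₂ st) (i c : ℕ) {α : Type*} [Primcodable α] {b : α → List ℕ}
    {r : α → List Bool} {k : α → ℕ} (hb : Computable b) (hr : Computable r)
    (hk : Computable k) : Computable (fun a => HitB st i c (b a) (r a) (k a)) := by
  have rl := Computable.list_length.comp hr
  have bl := Computable.list_length.comp hb
  have hkk : Computable (fun a => kk i (b a) (r a).length) :=
    kk_p.to_comp.comp (((Computable.const i).pair hb).pair rl)
  refine c_or (c_le (c_add (Computable.encode.comp hr) (Computable.const 2)) hk)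
    (c_and (c_and (c_le rl bl) (c_eq (hst.comp hb rl) (Computable.option_some.comp hr)))
      (c_and (c_le hkk bl) (c_le (c_add hkk (Computable.const c)) hk)))

variable (G : ℕ → ℕ) (i : ℕ)

/-- the cost of the changes at stage `n` -/
noncomputable def cP (n : ℕ) : ℝ :=
  open Classical in
  ∑ w ∈ Finset.range (n + 1),
    if (st (pre G n) w).isSome ∧ st (pre G (n + 1)) w ≠ st (pre G n) w then wR i (pre G n) w
    else 0

noncomputable def totP (n : ℕ) : ℝ := ∑ j ∈ Finset.range n, cP st G i j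

lemma cP_nonneg (n : ℕ) : 0 ≤ cP st G i n := by
  unfold cP
  apply Finset.sum_nonneg
  intro w _
  split_ifs
  · exact wR_nonneg _ _ _
  · exact le_refl _

lemma totP_nonneg (n : ℕ) : 0 ≤ totP st G i n :=
  Finset.sum_nonneg (fun _ _ => cP_nonneg _ _ _ _)

def Cur (n : ℕ) (ρ : List Bool) : Prop :=
  ρ.length ≤ n ∧ st (pre G n) ρ.length = some ρ

noncomputable def cur (n : ℕ) (ρ : List Bool) : ℝ :=
  open Classical in if Cur st G n ρ then wR i (pre G n) ρ.length else 0

noncomputable def RR : ℕ → List Bool → ℝ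
  | 0, ρ => cur st G i 0 ρ
  | n + 1, ρ => max (RR n ρ) (cur st G i (n + 1) ρ)

lemma cur_nonneg (n : ℕ) (ρ : List Bool) : 0 ≤ cur st G i n ρ := by
  unfold cur
  split_ifs
  · exact wR_nonneg _ _ _
  · exact le_refl _

lemma cur_le (n : ℕ) (ρ : List Bool) : cur st G i n ρ ≤ wR i (pre G n) ρ.length := by
  unfold cur
  split_ifs
  · exact le_refl _
  · exact wR_nonneg _ _ _

lemma RR_nonneg (n : ℕ) (ρ : List Bool) : 0 ≤ RR st G i n ρ := by
  induction n with
  | zero => exact cur_nonneg st G i 0 ρ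
  | succ n ih => exact le_trans ih (le_max_left _ _)

lemma RR_le (n : ℕ) (ρ : List Bool) : RR st G i n ρ ≤ wR i (pre G n) ρ.length := by
  induction n with
  | zero => exact cur_le st G i 0 ρ
  | succ n ih =>
    apply max_le
    · exact le_trans ih (wR_mono (pre_prefix G (Nat.le_succ n)) _)
    · exact cur_le st G i (n + 1) ρ

lemma RR_mono {n m : ℕ} (h : n ≤ m) (ρ : List Bool) : RR st G i n ρ ≤ RR st G i m ρ := by
  induction m, h using Nat.le_induction with
  | base => exact le_refl _
  | succ m _ ih => exact le_trans ih (le_max_left _ _)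

lemma cur_le_RR {n m : ℕ} (h : n ≤ m) (ρ : List Bool) : cur st G i n ρ ≤ RR st G i m ρ := by
  refine le_trans ?_ (RR_mono st G i h ρ)
  cases n with
  | zero => exact le_refl _
  | succ n => exact le_max_right _ _

open Classical in
lemma sum_cur (n : ℕ) (T : Finset (List Bool)) (hT : ∀ ρ ∈ T, Cur st G n ρ) :
    ∑ ρ ∈ T, wR i (pre G n) ρ.length ≤
    ∑ w ∈ Finset.range (n + 1),
      if ∃ ρ ∈ T, st (pre G n) w = some ρ then wR i (pre G n) w else 0 := by
  have hinj : Set.InjOn (fun ρ : List Bool => ρ.length) T := by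
    intro ρ hρ ρ' hρ' he
    simp only at he
    have h1 := (hT ρ hρ).2
    rw [he, (hT ρ' hρ').2] at h1
    exact (Option.some.inj h1).symm
  calc ∑ ρ ∈ T, wR i (pre G n) ρ.length
      = ∑ w ∈ T.image (fun ρ : List Bool => ρ.length), wR i (pre G n) w :=
        (Finset.sum_image hinj).symm
    _ ≤ ∑ w ∈ (Finset.range (n + 1)).filter (fun w => ∃ ρ ∈ T, st (pre G n) w = some ρ),
        wR i (pre G n) w := by
        apply Finset.sum_le_sum_of_subset_of_nonneg
        · intro w hw
          rw [Finset.mem_image] at hw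
          obtain ⟨ρ, hρ, rfl⟩ := hw
          rw [Finset.mem_filter, Finset.mem_range]
          exact ⟨by have := (hT ρ hρ).1; omega, ρ, hρ, (hT ρ hρ).2⟩
        · intro w _ _
          exact wR_nonneg _ _ _
    _ = _ := Finset.sum_filter _ _

open Classical in
lemma key_sum (hlen : ∀ β w ρ, st β w = some ρ → ρ.length = w) (S : Finset (List Bool)) (n : ℕ) :
    ∑ ρ ∈ S.filter (fun ρ => ¬ Cur st G n ρ), RR st G i n ρ ≤ totP st G i n := by
  induction n with
  | zero =>
    have : ∑ ρ ∈ S.filter (fun ρ => ¬ Cur st G 0 ρ), RR st G i 0 ρ = 0 := by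
      apply Finset.sum_eq_zero
      intro ρ hρ
      rw [Finset.mem_filter] at hρ
      show cur st G i 0 ρ = 0
      unfold cur
      rw [if_neg hρ.2]
    rw [this]
    exact totP_nonneg _ _ _ _
  | succ n ih =>
    have h1 : ∑ ρ ∈ S.filter (fun ρ => ¬ Cur st G (n + 1) ρ), RR st G i (n + 1) ρ =
        ∑ ρ ∈ S.filter (fun ρ => ¬ Cur st G (n + 1) ρ), RR st G i n ρ := by
      refine Finset.sum_congr rfl (fun ρ hρ => ?_)
      rw [Finset.mem_filter] at hρ
      show max (RR st G i n ρ) (cur st G i (n + 1) ρ) = _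
      have : cur st G i (n + 1) ρ = 0 := by unfold cur; rw [if_neg hρ.2]
      rw [this]
      exact max_eq_left (RR_nonneg st G i n ρ)
    have h2 : ∑ ρ ∈ S.filter (fun ρ => ¬ Cur st G (n + 1) ρ), RR st G i n ρ ≤
        ∑ ρ ∈ S.filter (fun ρ => ¬ Cur st G n ρ), RR st G i n ρ +
        ∑ ρ ∈ S.filter (fun ρ => Cur st G n ρ ∧ ¬ Cur st G (n + 1) ρ), RR st G i n ρ := by
      rw [← Finset.sum_union]
      · apply Finset.sum_le_sum_of_subset_of_nonneg
        · intro ρ hρ
          rw [Finset.mem_filter] at hρ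
          rw [Finset.mem_union, Finset.mem_filter, Finset.mem_filter]
          by_cases h3 : Cur st G n ρ
          · exact Or.inr ⟨hρ.1, h3, hρ.2⟩
          · exact Or.inl ⟨hρ.1, h3⟩
        · intro ρ _ _
          exact RR_nonneg _ _ _ _ _
      · rw [Finset.disjoint_left]
        intro ρ h3 h4
        rw [Finset.mem_filter] at h3 h4
        exact h3.2 h4.2.1
    have h3 : ∑ ρ ∈ S.filter (fun ρ => Cur st G n ρ ∧ ¬ Cur st G (n + 1) ρ), RR st G i n ρ ≤
        cP st G i n := by
      set T := S.filter (fun ρ => Cur st G n ρ ∧ ¬ Cur st G (n + 1) ρ) with hTd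
      have hT : ∀ ρ ∈ T, Cur st G n ρ := by
        intro ρ hρ
        rw [hTd, Finset.mem_filter] at hρ
        exact hρ.2.1
      calc ∑ ρ ∈ T, RR st G i n ρ ≤ ∑ ρ ∈ T, wR i (pre G n) ρ.length :=
            Finset.sum_le_sum (fun ρ _ => RR_le st G i n ρ)
        _ ≤ _ := sum_cur st G i n T hT
        _ ≤ cP st G i n := by
            unfold cP
            refine Finset.sum_le_sum (fun w hw => ?_)
            by_cases h4 : ∃ ρ ∈ T, st (pre G n) w = some ρ
            · rw [if_pos h4, if_pos]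
              obtain ⟨ρ, hρ, h5⟩ := h4
              refine ⟨by rw [h5]; rfl, ?_⟩
              rw [h5]
              intro h6
              rw [hTd, Finset.mem_filter] at hρ
              have h7 := hρ.2.1
              have h8 : ρ.length = w := hlen _ _ _ h5
              apply hρ.2.2
              rw [← h8] at h6
              exact ⟨by have := h7.1; omega, h6⟩
            · rw [if_neg h4]
              split_ifs
              · exact wR_nonneg _ _ _
              · exact le_refl _
    rw [h1]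
    have h4 : totP st G i (n + 1) = totP st G i n + cP st G i n := by
      unfold totP
      rw [Finset.sum_range_succ]
    rw [h4]
    linarith

open Classical in
lemma total_sum (hlen : ∀ β w ρ, st β w = some ρ → ρ.length = w)
    (hm : ∀ n, massR i (pre G n) ≤ 1) (S : Finset (List Bool)) (n : ℕ) :
    ∑ ρ ∈ S, RR st G i n ρ ≤ totP st G i n + 1 := by
  have h1 := key_sum st G i hlen S n
  have h2 : ∑ ρ ∈ S.filter (fun ρ => Cur st G n ρ), RR st G i n ρ ≤ 1 := by
    set T := S.filter (fun ρ => Cur st G n ρ) with hTd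
    have hT : ∀ ρ ∈ T, Cur st G n ρ := by
      intro ρ hρ
      rw [hTd, Finset.mem_filter] at hρ
      exact hρ.2
    calc ∑ ρ ∈ T, RR st G i n ρ ≤ ∑ ρ ∈ T, wR i (pre G n) ρ.length :=
          Finset.sum_le_sum (fun ρ _ => RR_le st G i n ρ)
      _ ≤ _ := sum_cur st G i n T hT
      _ ≤ massR i (pre G n) := by
          unfold massR
          rw [pre_length]
          refine Finset.sum_le_sum (fun w _ => ?_)
          split_ifs
          · exact le_refl _
          · exact wR_nonneg _ _ _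
      _ ≤ 1 := hm n
  have h3 := Finset.sum_filter_add_sum_filter_not S (fun ρ => Cur st G n ρ)
    (fun ρ => RR st G i n ρ)
  linarith

attribute [local irreducible] DBl HitB

noncomputable def tst (i c z : ℕ) : ℕ :=
  cond (HitB st i c (pre G z.unpair.2) (DBl z.unpair.1.unpair.1) z.unpair.1.unpair.2) 0 1

lemma tst_TR (hst : Computable₂ st) (i c : ℕ) : TR (tst st G i c) G := by
  have b : Computable (fun z : ℕ => LS z.unpair.2) :=
    (PR.LS_p.comp (Primrec.snd.comp Primrec.unpair)).to_comp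
  have z1 : Primrec (fun z : ℕ => z.unpair.1.unpair.1.unpair.1) :=
    Primrec.fst.comp (Primrec.unpair.comp (Primrec.fst.comp (Primrec.unpair.comp
      (Primrec.fst.comp Primrec.unpair))))
  have z2 : Primrec (fun z : ℕ => z.unpair.1.unpair.1.unpair.2) :=
    Primrec.snd.comp (Primrec.unpair.comp (Primrec.fst.comp (Primrec.unpair.comp
      (Primrec.fst.comp Primrec.unpair))))
  have h1 := HitB_c st hst i c b (DBl_p.comp z1).to_comp z2.to_comp
  have h2 := Computable.cond h1 (Computable.const 0) (Computable.const 1)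
  have h3 : TR (fun z => Nat.pair z (Encodable.encode (pre G z.unpair.2))) G :=
    RecT.pair (Computable.recT Computable.id) ((recT_pre (TR.refl G)).comp
      (Computable.recT (Computable.snd.comp Computable.unpair)))
  have h4 := (Computable.recT (O := {(G : ℕ →. ℕ)}) h2).comp h3
  refine Nat.RecursiveIn.of_eq h4 ?_
  intro z
  congr 1
  simp only [Nat.unpair_pair]
  rw [PR.LS_encode]
  rfl

lemma tst_zero {i c z : ℕ} : tst st G i c z = 0 ↔
    HitB st i c (pre G z.unpair.2) (DBl z.unpair.1.unpair.1) z.unpair.1.unpair.2 = true := by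
  unfold tst
  cases HitB st i c (pre G z.unpair.2) (DBl z.unpair.1.unpair.1) z.unpair.1.unpair.2 <;> simp

theorem trivial_rel (hst : Computable₂ st) (hlen : ∀ β w ρ, st β w = some ρ → ρ.length = w)
    (hbdd : ∀ i, (∀ n, massR i (pre G n) ≤ 1) → ∃ C : ℝ, ∀ n, totP st G i n ≤ C)
    (X : ℕ → List Bool) (hX : ∀ n, ∀ᶠ N in atTop, st (pre G N) n = some (X n))
    (f : ℕ → ℕ) (φ : ℕ →. ℕ) (hφ : Nat.RecursiveIn {(G : ℕ →. ℕ)} φ)
    (hdom : ∀ n k : ℕ, (φ (Nat.pair n k)).Dom ↔ f n ≤ k)
    (hsum : ∀ s : Finset ℕ, ∑ n ∈ s, (1/2 : ℝ) ^ (f n) ≤ 1) :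
    ∃ h : List Bool → ℕ,
      (∃ ψ : ℕ →. ℕ, Nat.RecursiveIn {(G : ℕ →. ℕ)} ψ ∧
        ∀ σ : List Bool, ∀ k : ℕ, (ψ (Nat.pair (Encodable.encode σ) k)).Dom ↔ h σ ≤ k) ∧
      (∀ s : Finset (List Bool), ∑ σ ∈ s, (1/2 : ℝ) ^ (h σ) ≤ 1) ∧
      ∃ c : ℕ, ∀ n : ℕ, h (X n) ≤ f n + c := by
  classical
  obtain ⟨ev, hev, hmono, hcor⟩ := use_principle G _ hφ
  obtain ⟨i, he⟩ := ev_code hev
  have hc1 : ∀ {n w k}, conv i (pre G n) (Nat.pair w k) → f w ≤ k := by
    intro n w k h
    obtain ⟨j, y, hy⟩ := conv_pre he h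
    have h1 : y ∈ φ (Nat.pair w k) := (hcor _ _).2 ⟨j, hy⟩
    exact (hdom w k).1 (Part.dom_iff_mem.2 ⟨y, h1⟩)
  have hc2 : ∀ w, ∀ᶠ n in atTop, conv i (pre G n) (Nat.pair w (f w)) := by
    intro w
    obtain ⟨y, hy⟩ := Part.dom_iff_mem.1 ((hdom w (f w)).2 (le_refl _))
    obtain ⟨j, hj⟩ := (hcor _ _).1 hy
    exact pre_conv he hj
  have hk1 : ∀ {n w}, kk i (pre G n) w ≤ n → f w ≤ kk i (pre G n) w := by
    intro n w h
    obtain ⟨k, hk, hc⟩ := (kk_le_iff (i := i) (w := w) (by rw [pre_length]; exact h)).1 (le_refl _)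
    exact le_trans (hc1 hc) hk
  have hk2 : ∀ w, ∀ᶠ n in atTop, kk i (pre G n) w = f w ∧ f w ≤ n := by
    intro w
    filter_upwards [hc2 w, eventually_ge_atTop (f w)] with n h1 h2
    have h3 : kk i (pre G n) w ≤ f w :=
      (kk_le_iff (by rw [pre_length]; exact h2)).2 ⟨f w, le_refl _, h1⟩
    exact ⟨le_antisymm h3 (hk1 (le_trans h3 h2)), h2⟩
  have hm : ∀ n, massR i (pre G n) ≤ 1 := by
    intro n
    refine le_trans ?_ (hsum (Finset.range ((pre G n).length + 1)))
    unfold massR
    refine Finset.sum_le_sum (fun w _ => ?_)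
    unfold wR
    by_cases h1 : kk i (pre G n) w ≤ (pre G n).length
    · rw [if_pos h1]
      apply pow_le_pow_of_le_one (by norm_num) (by norm_num)
      rw [pre_length] at h1
      exact hk1 h1
    · rw [if_neg h1]; positivity
  obtain ⟨C, hC⟩ := hbdd i hm
  have hC0 : 0 ≤ C := le_trans (totP_nonneg _ _ _ _) (hC 0)
  obtain ⟨c, hc⟩ := exists_pow_lt_of_lt_one (show (0 : ℝ) < 1 / (2 * (C + 1)) by positivity)
    (show ((1 : ℝ) / 2) < 1 by norm_num)
  have hc' : ((1 : ℝ) / 2) ^ c * (C + 1) ≤ 1 / 2 := by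
    have h1 : (0 : ℝ) < C + 1 := by linarith
    calc ((1 : ℝ) / 2) ^ c * (C + 1) ≤ (1 / (2 * (C + 1))) * (C + 1) :=
          mul_le_mul_of_nonneg_right hc.le h1.le
      _ = 1 / 2 := by field_simp
  have hex : ∀ ρ : List Bool, ∃ k, ∃ n, HitB st i c (pre G n) ρ k = true := fun ρ =>
    ⟨Encodable.encode ρ + 2, 0, by rw [HitB_iff]; exact Or.inl (le_refl _)⟩
  have hle : ∀ ρ k, Nat.find (hex ρ) ≤ k ↔ ∃ n, HitB st i c (pre G n) ρ k = true := by
    intro ρ k
    constructor
    · intro h
      obtain ⟨n, hn⟩ := Nat.find_spec (hex ρ)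
      exact ⟨n, HitB_mono st h hn⟩
    · intro h
      exact Nat.find_min' (hex ρ) h
  refine ⟨fun ρ => Nat.find (hex ρ), ?_, ?_, c, ?_⟩
  · refine ⟨_, Nat.RecursiveIn.rfind (tst_TR st G hst i c), fun σ k => ?_⟩
    rw [hle]
    rw [Part.dom_iff_mem]
    constructor
    · rintro ⟨n, hn⟩
      have hn' := Nat.mem_rfind.1 hn
      refine ⟨n, ?_⟩
      have h1 := hn'.1
      simp only [Part.map_eq_map, Part.map_some, Part.mem_some_iff] at h1
      have h2 := (tst_zero st G).1 (of_decide_eq_true h1.symm)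
      simp only [Nat.unpair_pair] at h2
      rw [DBl_encode] at h2
      exact h2
    · intro hn
      have h2 := Nat.find_spec hn
      refine ⟨Nat.find hn, Nat.mem_rfind.2 ⟨?_, ?_⟩⟩
      · simp only [Part.map_eq_map, Part.map_some, Part.mem_some_iff]
        symm
        apply decide_eq_true
        rw [tst_zero]
        simp only [Nat.unpair_pair]
        rw [DBl_encode]
        exact h2
      · intro m hm'
        have h3 := Nat.find_min hn hm'
        simp only [Part.map_eq_map, Part.map_some, Part.mem_some_iff]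
        symm
        apply decide_eq_false
        rw [tst_zero]
        simp only [Nat.unpair_pair]
        rw [DBl_encode]
        exact h3
  · intro S
    -- a common stage
    have hstg : ∀ ρ : List Bool, ∀ᶠ N in atTop, ((1 : ℝ) / 2) ^ (Nat.find (hex ρ)) ≤
        (1 / 2) ^ (Encodable.encode ρ + 2) + (1 / 2) ^ c * RR st G i N ρ := by
      intro ρ
      obtain ⟨n, hn⟩ := Nat.find_spec (hex ρ)
      generalize Nat.find (hex ρ) = H at hn ⊢
      rw [HitB_iff] at hn
      filter_upwards [eventually_ge_atTop n] with N hN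
      have h0 : 0 ≤ (1 / 2 : ℝ) ^ c * RR st G i N ρ :=
        mul_nonneg (by positivity) (RR_nonneg _ _ _ _ _)
      rcases hn with h1 | ⟨⟨h1, h2⟩, h3, h4⟩
      · have h5 : ((1 : ℝ) / 2) ^ H ≤ (1 / 2) ^ (Encodable.encode ρ + 2) :=
          pow_le_pow_of_le_one (by norm_num) (by norm_num) h1
        linarith
      · rw [pre_length] at h1 h3
        have h5 : cur st G i n ρ = (1 / 2) ^ (kk i (pre G n) ρ.length) := by
          unfold cur
          rw [if_pos (show Cur st G n ρ from ⟨h1, h2⟩)]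
          unfold wR
          rw [if_pos (by rw [pre_length]; exact h3)]
        have h6 := cur_le_RR st G i hN ρ
        rw [h5] at h6
        have h7 : ((1 : ℝ) / 2) ^ H ≤
            (1 / 2) ^ (kk i (pre G n) ρ.length + c) :=
          pow_le_pow_of_le_one (by norm_num) (by norm_num) h4
        rw [pow_add, mul_comm] at h7
        have h8 := mul_le_mul_of_nonneg_left h6 (show (0 : ℝ) ≤ (1 / 2) ^ c by positivity)
        have h9 : (0 : ℝ) ≤ (1 / 2) ^ (Encodable.encode ρ + 2) := by positivity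
        linarith
    have hall : ∀ᶠ N in atTop, ∀ ρ ∈ S, ((1 : ℝ) / 2) ^ (Nat.find (hex ρ)) ≤
        (1 / 2) ^ (Encodable.encode ρ + 2) + (1 / 2) ^ c * RR st G i N ρ :=
      (Filter.eventually_all_finset S).2 (fun ρ _ => hstg ρ)
    obtain ⟨N, hN⟩ := hall.exists
    have h1 := total_sum st G i hlen hm S N
    have h2 := hC N
    have h3 : ∑ ρ ∈ S, ((1 : ℝ) / 2) ^ (Encodable.encode ρ + 2) ≤ 1 / 2 := by
      have h4 : ∑ ρ ∈ S, ((1 : ℝ) / 2) ^ (Encodable.encode ρ) ≤ 2 := by
        have h5 := geo_le (S.image (fun ρ => Encodable.encode ρ))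
        rw [Finset.sum_image (fun x _ y _ h => Encodable.encode_injective h)] at h5
        exact h5
      have h6 : ∑ ρ ∈ S, ((1 : ℝ) / 2) ^ (Encodable.encode ρ + 2) =
          (1 / 4) * ∑ ρ ∈ S, ((1 : ℝ) / 2) ^ (Encodable.encode ρ) := by
        rw [Finset.mul_sum]
        refine Finset.sum_congr rfl (fun ρ _ => ?_)
        rw [pow_add]; ring
      rw [h6]; linarith
    calc ∑ ρ ∈ S, ((1 : ℝ) / 2) ^ (Nat.find (hex ρ))
        ≤ ∑ ρ ∈ S, ((1 / 2) ^ (Encodable.encode ρ + 2) + (1 / 2) ^ c * RR st G i N ρ) :=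
          Finset.sum_le_sum hN
      _ = ∑ ρ ∈ S, ((1 : ℝ) / 2) ^ (Encodable.encode ρ + 2) +
          (1 / 2) ^ c * ∑ ρ ∈ S, RR st G i N ρ := by
          rw [Finset.sum_add_distrib, Finset.mul_sum]
      _ ≤ 1 / 2 + (1 / 2) ^ c * (C + 1) := by
          apply add_le_add h3
          apply mul_le_mul_of_nonneg_left _ (by positivity)
          linarith
      _ ≤ 1 := by linarith
  · intro n
    simp only
    rw [hle]
    obtain ⟨N0, hN0⟩ := eventually_atTop.1 (hX n)
    obtain ⟨N, ⟨h1, h2⟩, h3⟩ := ((hk2 n).and (eventually_ge_atTop (max N0 n))).exists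
    refine ⟨N, ?_⟩
    rw [HitB_iff]
    right
    have h6 := hN0 N (le_trans (le_max_left _ _) h3)
    have h5 : n ≤ N := le_trans (le_max_right _ _) h3
    have hl : (X n).length = n := hlen _ _ _ h6
    rw [hl, pre_length]
    refine ⟨⟨h5, h6⟩, ?_, ?_⟩
    · rw [h1]; exact h2
    · rw [h1]

end gen

end Pool.Agent.L5helper75.PJ
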