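import Pool.Agent.L5helper75.PJ.Dec
import Pool.Agent.L5helper75.PJ.TrivP

set_option autoImplicit false

/-! A Martin-Löf random sequence which does not compute the halting problem and relative to which
the halting problem is K-trivial. -/

namespace Pool.Agent.L5helper75.PJ

open Nat.Partrec (Code)
open Filter
open Pool.Agent.Helper743
open Pool.Agent.Helper743.AC (geo_le pow_p pre_take massR wR wR_mono wR_nonneg)
open Pool.Agent.L5helper75.AP (bt bt_le bt_ex compact_bound)
open Pool.Agent.H166R3.AT

/-! ### the cost of the changes of the decoded approximations -/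

lemma stp_change {G : ℕ → ℕ} {n w : ℕ} {ρ : List Bool} (h1 : stp (pre G n) w = some ρ)
    (h2 : stp (pre G (n + 1)) w ≠ some ρ) :
    ix (pre G (n + 1)) (WS G n) < n + 1 ∧ ix (pre G (n + 1)) (WS G n) < w := by
  by_contra hcon
  apply h2
  unfold stp at h1 ⊢
  rw [wl_pre] at h1 ⊢
  rw [Option.map_eq_some_iff] at h1 ⊢
  obtain ⟨q, h3, h4⟩ := h1
  refine ⟨q, ?_, h4⟩
  have h5 : ∀ k < w, k ∈ WS G (n + 1) ↔ k ∈ WS G n := by
    intro k hk
    rw [WS_succ]
    rcases upd_cases (pre G (n + 1)) (WS G n) with ⟨a1, a2, _, _⟩ | ⟨a2, _⟩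
    · rw [a2, List.mem_cons]
      rw [pre_length] at a1
      constructor
      · rintro (h6 | h6)
        · exact absurd ⟨a1, by omega⟩ hcon
        · exact h6
      · exact Or.inr
    · rw [a2]
  rw [dec_congr h5]
  exact dec_mono (pre_prefix G (Nat.le_succ n)) h3

lemma cP_le {G : ℕ → ℕ} {i n : ℕ} (hm : massR i (pre G (n + 1)) ≤ 1) :
    cP stp G i n ≤ cc G i n := by
  classical
  by_cases hix : ix (pre G (n + 1)) (WS G n) < n + 1
  · unfold cP cc costR
    rw [if_pos hix, if_pos hm, pre_length]
    calc ∑ w ∈ Finset.range (n + 1),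
          (if (stp (pre G n) w).isSome ∧ stp (pre G (n + 1)) w ≠ stp (pre G n) w then
            wR i (pre G n) w else 0)
        ≤ ∑ w ∈ Finset.range (n + 1),
          (if ix (pre G (n + 1)) (WS G n) < w then wR i (pre G (n + 1)) w else 0) := by
          refine Finset.sum_le_sum (fun w _ => ?_)
          by_cases h1 : (stp (pre G n) w).isSome ∧ stp (pre G (n + 1)) w ≠ stp (pre G n) w
          · rw [if_pos h1]
            obtain ⟨h2, h3⟩ := h1
            rw [Option.isSome_iff_exists] at h2
            obtain ⟨ρ, hρ⟩ := h2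
            rw [hρ] at h3
            rw [if_pos (stp_change hρ h3).2]
            exact wR_mono (pre_prefix G (Nat.le_succ n)) w
          · rw [if_neg h1]
            split_ifs
            · exact wR_nonneg _ _ _
            · exact le_refl _
      _ ≤ _ := by
          apply Finset.sum_le_sum_of_subset_of_nonneg
          · exact Finset.range_mono (by omega)
          · intro w _ _
            split_ifs
            · exact wR_nonneg _ _ _
            · exact le_refl _
  · have h0 : cP stp G i n = 0 := by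
      unfold cP
      apply Finset.sum_eq_zero
      intro w _
      rw [if_neg]
      rintro ⟨h2, h3⟩
      rw [Option.isSome_iff_exists] at h2
      obtain ⟨ρ, hρ⟩ := h2
      rw [hρ] at h3
      exact hix (stp_change hρ h3).1
    rw [h0]
    exact cc_nonneg _ _ _

lemma totP_bdd {G : ℕ → ℕ} {i : ℕ} (hm : ∀ n, massR i (pre G n) ≤ 1) (n : ℕ) :
    totP stp G i n ≤ i + 2 :=
  le_trans (Finset.sum_le_sum (fun j _ => cP_le (hm (j + 1)))) (cc_bdd G i n)

/-! ### the construction -/

lemma cl_closed (d : List ℕ → Bool) : IsClosed (cl d) := by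
  have h : cl d = ⋂ n, {a | d (pre (xf a) n) = false} := by
    ext a
    simp [cl]
  rw [h]
  refine isClosed_iInter (fun n => ?_)
  rw [← isOpen_compl_iff, isOpen_iff_forall_mem_open]
  intro a ha
  refine ⟨PiNat.cylinder a n, ?_, PiNat.isOpen_cylinder _ a n, PiNat.self_mem_cylinder a n⟩
  intro b hb
  have h1 := pre_xf_congr (a := b) (b := a) (n := n)
    (fun i hi => (PiNat.mem_cylinder_iff.1 hb) i hi)
  simp only [Set.mem_compl_iff, Set.mem_setOf_eq] at ha ⊢
  rw [h1]
  exact ha

lemma mem_cons_of {ts : List (List ℕ)} {ks : List ℕ} {X : ℕ → Bool}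
    (hX : X ∈ cl (killH (ts, ks))) (l : ℕ) : X ∈ cl (killH (pre (xf X) l :: ts, ks)) := by
  intro n
  have h1 := killH_iff.1 (hX n)
  refine killH_iff.2 ⟨h1.1, ?_, h1.2.2⟩
  intro τ hτ
  rcases List.mem_cons.1 hτ with h2 | h2
  · subst h2
    rw [pre_length, pre_length]
    rcases le_total n l with h | h
    · rw [pre_take _ h, List.take_of_length_le (by rw [pre_length]; exact h)]
    · rw [pre_take _ h, List.take_of_length_le (by rw [pre_length]; exact h)]
  · exact h1.2.1 τ h2

lemma of_mem_cons {ts : List (List ℕ)} {ks : List ℕ} {τ : List ℕ} {X : ℕ → Bool}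
    (hX : X ∈ cl (killH (τ :: ts, ks))) :
    X ∈ cl (killH (ts, ks)) ∧ pre (xf X) τ.length = τ := by
  constructor
  · intro n
    have h1 := killH_iff.1 (hX n)
    exact killH_iff.2 ⟨h1.1, fun τ' h => h1.2.1 τ' (List.mem_cons_of_mem _ h), h1.2.2⟩
  · have h1 := (killH_iff.1 (hX τ.length)).2.1 τ (List.mem_cons_self)
    rw [pre_length, List.take_length, List.take_of_length_le (by rw [pre_length])] at h1
    exact h1

/-- the string of length `loc h` with the number `m` is an initial segment of a member -/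
def Al (h : Hs) (m : ℕ) : Prop := ∃ X ∈ cl (killH h), pre (xf X) (loc h) = sb (loc h) m

open Classical in
noncomputable def As (h : Hs) : Finset ℕ := (Finset.range (2 ^ loc h)).filter (Al h)

lemma mem_As {h : Hs} {m : ℕ} : m ∈ As h ↔ m < 2 ^ loc h ∧ Al h m := by
  classical
  unfold As
  rw [Finset.mem_filter, Finset.mem_range]

lemma As_two {h : Hs} (hne : (cl (killH h)).Nonempty) : ∃ a ∈ As h, ∃ b ∈ As h, a < b := by
  obtain ⟨X, hX, X', hX', hd⟩ := two_members hne
  obtain ⟨m, hm, h1⟩ := ex_sb X (loc h)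
  obtain ⟨m', hm', h2⟩ := ex_sb X' (loc h)
  have a1 : m ∈ As h := mem_As.2 ⟨hm, X, hX, h1.symm⟩
  have a2 : m' ∈ As h := mem_As.2 ⟨hm', X', hX', h2.symm⟩
  rcases lt_trichotomy m m' with h3 | h3 | h3
  · exact ⟨m, a1, m', a2, h3⟩
  · exfalso
    apply hd
    rw [← h1, ← h2, h3]
  · exact ⟨m', a2, m, a1, h3⟩

open Classical in
noncomputable def lm (h : Hs) : ℕ := if hh : (As h).Nonempty then (As h).min' hh else 0

open Classical in
noncomputable def rm (h : Hs) : ℕ := if hh : (As h).Nonempty then (As h).max' hh else 0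

lemma lm_spec {h : Hs} (hne : (cl (killH h)).Nonempty) : lm h ∈ As h ∧ (∀ m ∈ As h, lm h ≤ m) ∧
    ∃ m ∈ As h, lm h < m := by
  obtain ⟨a, ha, b, hb, hab⟩ := As_two hne
  have hh : (As h).Nonempty := ⟨a, ha⟩
  unfold lm
  rw [dif_pos hh]
  exact ⟨Finset.min'_mem _ _, fun m hm => Finset.min'_le _ _ hm, b, hb,
    lt_of_le_of_lt (Finset.min'_le _ _ ha) hab⟩

lemma rm_spec {h : Hs} (hne : (cl (killH h)).Nonempty) : rm h ∈ As h ∧ (∀ m ∈ As h, m ≤ rm h) ∧
    ∃ m ∈ As h, m < rm h := by
  obtain ⟨a, ha, b, hb, hab⟩ := As_two hne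
  have hh : (As h).Nonempty := ⟨a, ha⟩
  unfold rm
  rw [dif_pos hh]
  exact ⟨Finset.max'_mem _ _, fun m hm => Finset.le_max' _ _ hm, a, ha,
    lt_of_lt_of_le hab (Finset.le_max' _ _ hb)⟩

lemma alive_not_dead {h : Hs} {m n : ℕ} (hm : m ∈ As h) (hn : loc h ≤ n) :
    ¬ deadB h (loc h) m n = true := by
  intro hd
  obtain ⟨hm1, X, hX, hXm⟩ := mem_As.1 hm
  obtain ⟨m', hm', h1⟩ := ex_sb X n
  have h2 : m' % 2 ^ loc h = m := by
    apply sb_inj (Nat.mod_lt _ (by positivity)) hm1
    rw [sb_mod, ← hXm, ← sb_take hn, h1, pre_take _ hn]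
  obtain ⟨k, hk, h3⟩ := deadB_iff.1 hd m' hm' h2
  rw [← sb_take hk, h1, pre_take _ hk, hX k] at h3
  exact absurd h3 (by simp)

lemma not_alive_dead {h : Hs} {m : ℕ} (hm1 : m < 2 ^ loc h) (hm : m ∉ As h) :
    ∀ᶠ n in atTop, deadB h (loc h) m n = true := by
  have hT : {X | pre (xf X) (loc h) = sb (loc h) m} ∩ cl (killH h) = ∅ := by
    rw [Set.eq_empty_iff_forall_notMem]
    rintro X ⟨h1, h2⟩
    exact hm (mem_As.2 ⟨hm1, X, h2, h1⟩)
  obtain ⟨N, hN⟩ := cl_bound (l := loc h) (fun a b hab ha => by
    simp only [Set.mem_setOf_eq] at ha ⊢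
    rw [← pre_xf_congr hab]; exact ha) hT
  filter_upwards [eventually_ge_atTop (max N (loc h))] with n hn
  have h1 : N ≤ n := le_trans (le_max_left _ _) hn
  rw [deadB_iff]
  intro m' _ hmod
  have h3 : nX m' ∈ {X | pre (xf X) (loc h) = sb (loc h) m} := by
    simp only [Set.mem_setOf_eq]
    rw [← sb_pre, ← sb_mod, hmod]
  obtain ⟨k, hk, h4⟩ := hN (nX m') h3
  exact ⟨k, by omega, by rw [sb_pre]; exact h4⟩

lemma num_pre {X : ℕ → Bool} {l n m : ℕ} (hl : l ≤ n) (hm : m < 2 ^ l)
    (h : pre (xf X) l = sb l m) : num (pre (xf X) n) l = m := by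
  unfold num
  rw [pre_take _ hl]
  apply fidx_eq hm.le
  · intro _
    exact decide_eq_true h.symm
  · intro j hj
    apply decide_eq_false
    intro h1
    have := sb_inj (lt_trans hj hm) hm (by rw [h1, h])
    omega

lemma ev_ball {P : ℕ → ℕ → Prop} {N : ℕ} (h : ∀ m < N, ∀ᶠ n in atTop, P m n) :
    ∀ᶠ n in atTop, ∀ m < N, P m n := by
  have h1 : ∀ᶠ n in atTop, ∀ m ∈ Finset.range N, P m n :=
    (Filter.eventually_all_finset (Finset.range N)).2 (fun m hm => h m (Finset.mem_range.1 hm))
  filter_upwards [h1] with n h2 m hm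
  exact h2 m (Finset.mem_range.2 hm)

/-- the decoding procedure is correct -/
lemma decB_lim {h : Hs} (hne : (cl (killH h)).Nonempty) {X : ℕ → Bool} {b : Bool}
    (hb : pre (xf X) (loc h) = sb (loc h) (if b = true then rm h else lm h)) :
    ∀ᶠ n in atTop, decB h (pre (xf X) n) = some b := by
  obtain ⟨l1, l2, l3⟩ := lm_spec hne
  obtain ⟨r1, r2, r3⟩ := rm_spec hne
  cases b with
  | false =>
    rw [if_neg (by simp)] at hb
    have hlt := (mem_As.1 l1).1
    -- the strings to the left are dead from some stage on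
    have h1 : ∀ᶠ n in atTop, ∀ m < lm h, deadB h (loc h) m n = true :=
      ev_ball (fun m hm => not_alive_dead (lt_trans hm hlt) (fun h2 => by
        have := l2 m h2; omega))
    obtain ⟨N, hN⟩ := eventually_atTop.1 h1
    filter_upwards [eventually_ge_atTop (max N (loc h))] with n hn
    have g1 : N ≤ n := le_trans (le_max_left _ _) hn
    have g2 : loc h ≤ n := le_trans (le_max_right _ _) hn
    have hnum := num_pre g2 hlt hb
    have hr : ∀ j, loc h ≤ j → ¬ rdead h (loc h) (lm h) j = true := by
      intro j hj h2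
      obtain ⟨m, hm, h3⟩ := l3
      exact alive_not_dead hm hj (rdead_iff.1 h2 m (mem_As.1 hm).1 h3)
    have hcn : cnd h (loc h) (lm h) n = true :=
      cnd_iff.2 ⟨g2, Or.inl (ldead_iff.2 (fun m hm => hN n g1 m hm))⟩
    rw [decB_some, pre_length, hnum]
    rcases fidx_cases (n + 1) (cnd h (loc h) (lm h)) with ⟨a1, a2, _⟩ | ⟨_, a2⟩
    · refine ⟨g2, a1, ?_⟩
      obtain ⟨b1, b2⟩ := cnd_iff.1 a2
      rcases b2 with b2 | b2
      · rw [b2]; rfl
      · exact absurd b2 (hr _ b1)
    · have := a2 n (by omega)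
      rw [hcn] at this
      exact absurd this (by simp)
  | true =>
    rw [if_pos rfl] at hb
    have hlt := (mem_As.1 r1).1
    have h1 : ∀ᶠ n in atTop, ∀ m < 2 ^ loc h, rm h < m → deadB h (loc h) m n = true :=
      ev_ball (P := fun m n => rm h < m → deadB h (loc h) m n = true) (fun m hm => by
        by_cases h2 : rm h < m
        · filter_upwards [not_alive_dead hm (fun h3 => by have := r2 m h3; omega)] with n h4 _
          exact h4
        · exact Eventually.of_forall (fun n h3 => absurd h3 h2))
    obtain ⟨N, hN⟩ := eventually_atTop.1 h1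
    filter_upwards [eventually_ge_atTop (max N (loc h))] with n hn
    have g1 : N ≤ n := le_trans (le_max_left _ _) hn
    have g2 : loc h ≤ n := le_trans (le_max_right _ _) hn
    have hnum := num_pre g2 hlt hb
    have hr : ∀ j, loc h ≤ j → ¬ ldead h (loc h) (rm h) j = true := by
      intro j hj h2
      obtain ⟨m, hm, h3⟩ := r3
      exact alive_not_dead hm hj (ldead_iff.1 h2 m h3)
    have hcn : cnd h (loc h) (rm h) n = true :=
      cnd_iff.2 ⟨g2, Or.inr (rdead_iff.2 (fun m hm h3 => hN n g1 m hm h3))⟩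
    rw [decB_some, pre_length, hnum]
    rcases fidx_cases (n + 1) (cnd h (loc h) (rm h)) with ⟨a1, a2, _⟩ | ⟨_, a2⟩
    · refine ⟨g2, a1, ?_⟩
      obtain ⟨b1, _⟩ := cnd_iff.1 a2
      have := hr _ b1
      rw [Bool.not_eq_true] at this
      rw [this]; rfl
    · have := a2 n (by omega)
      rw [hcn] at this
      exact absurd this (by simp)

variable (C : ℕ → Bool)

open Classical in
noncomputable def nextk (h : Hs) (s : ℕ) : List ℕ :=
  if (cl (killH (h.1, s :: h.2))).Nonempty then s :: h.2 else h.2

noncomputable def stepH (s : ℕ) (h : Hs) : Hs :=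
  (sb (loc (h.1, nextk h s)) (if C s = true then rm (h.1, nextk h s) else lm (h.1, nextk h s)) ::
    h.1, nextk h s)

noncomputable def hsq (s : ℕ) : Hs := Nat.rec ([], []) (fun s h => stepH C s h) s

lemma hsq_succ (s : ℕ) : hsq C (s + 1) = stepH C s (hsq C s) := rfl

lemma nextk_ne {h : Hs} (hne : (cl (killH h)).Nonempty) (s : ℕ) :
    (cl (killH (h.1, nextk h s))).Nonempty := by
  classical
  unfold nextk
  split_ifs with h1
  · exact h1
  · exact hne

lemma hsq_ne (s : ℕ) : (cl (killH (hsq C s))).Nonempty := by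
  induction s with
  | zero =>
    obtain ⟨X, hX⟩ := killR_ne
    exact ⟨X, fun n => killH_iff.2 ⟨hX n, fun τ h => by simp [hsq] at h,
      fun k h => by simp [hsq] at h⟩⟩
  | succ s ih =>
    have h1 := nextk_ne ih s
    rw [hsq_succ]
    unfold stepH
    have h2 : (if C s = true then rm ((hsq C s).1, nextk (hsq C s) s) else
        lm ((hsq C s).1, nextk (hsq C s) s)) ∈ As ((hsq C s).1, nextk (hsq C s) s) := by
      split_ifs
      · exact (rm_spec h1).1
      · exact (lm_spec h1).1
    obtain ⟨_, X, hX, h3⟩ := mem_As.1 h2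
    refine ⟨X, ?_⟩
    rw [← h3]
    exact mem_cons_of hX _

lemma hsq_sub (s : ℕ) : cl (killH (hsq C (s + 1))) ⊆
    cl (killH ((hsq C s).1, nextk (hsq C s) s)) := by
  intro X hX
  rw [hsq_succ] at hX
  exact (of_mem_cons hX).1

lemma nextk_sub (h : Hs) (s : ℕ) : cl (killH (h.1, nextk h s)) ⊆ cl (killH h) := by
  classical
  intro X hX n
  have h1 := killH_iff.1 (hX n)
  refine killH_iff.2 ⟨h1.1, h1.2.1, fun k hk => h1.2.2 k ?_⟩
  unfold nextk
  simp only
  split_ifs
  · exact List.mem_cons_of_mem _ hk
  · exact hk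

lemma exX : ∃ X, ∀ s, X ∈ cl (killH (hsq C s)) := by
  obtain ⟨X, hX⟩ := IsCompact.nonempty_iInter_of_sequence_nonempty_isCompact_isClosed
    (fun s => cl (killH (hsq C s)))
    (fun s => (hsq_sub C s).trans (nextk_sub _ _)) (fun s => hsq_ne C s)
    ((cl_closed _).isCompact) (fun s => cl_closed _)
  rw [Set.mem_iInter] at hX
  exact ⟨X, hX⟩

section member

variable {C} {X : ℕ → Bool} (hX : ∀ s, X ∈ cl (killH (hsq C s)))

include hX

lemma X_next (s : ℕ) : pre (xf X) (loc ((hsq C s).1, nextk (hsq C s) s)) =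
    sb (loc ((hsq C s).1, nextk (hsq C s) s)) (if C s = true then
      rm ((hsq C s).1, nextk (hsq C s) s) else lm ((hsq C s).1, nextk (hsq C s) s)) := by
  have h1 := hX (s + 1)
  rw [hsq_succ] at h1
  have h2 := (of_mem_cons h1).2
  rw [sb_len] at h2
  exact h2

lemma hsq_succ' (s : ℕ) : hsq C (s + 1) =
    (pre (xf X) (loc ((hsq C s).1, nextk (hsq C s) s)) :: (hsq C s).1, nextk (hsq C s) s) := by
  rw [X_next hX s, hsq_succ]
  rfl

lemma mem_WW_iff (s : ℕ) : s ∈ WW (xf X) ↔
    ¬ (cl (killH ((hsq C s).1, s :: (hsq C s).2))).Nonempty := by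
  classical
  constructor
  · rintro ⟨n, hn⟩ hne
    have h1 := hX (s + 1) n
    have h2 := (killH_iff.1 h1).2.2 s (by
      rw [hsq_succ]
      show s ∈ nextk (hsq C s) s
      unfold nextk
      rw [if_pos hne]
      exact List.mem_cons_self)
    rw [wl_pre] at h2
    exact h2 hn
  · intro hne
    by_contra h1
    apply hne
    refine ⟨X, fun n => ?_⟩
    have h2 := killH_iff.1 (hX s n)
    refine killH_iff.2 ⟨h2.1, h2.2.1, fun k hk => ?_⟩
    rcases List.mem_cons.1 hk with h3 | h3
    · subst h3
      rw [wl_pre]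
      exact fun h4 => h1 ⟨n, h4⟩
    · exact h2.2.2 k h3

lemma dec_lim (w : ℕ) : ∀ᶠ n in atTop, ∀ L : List ℕ, (∀ k < w, k ∈ L ↔ k ∈ WW (xf X)) →
    dec (pre (xf X) n) L w = some (hsq C w, (List.range w).map C) := by
  classical
  induction w with
  | zero => exact Eventually.of_forall (fun n L _ => rfl)
  | succ w ih =>
    have hne := nextk_ne (hsq_ne C w) w
    have h1 := decB_lim hne (X_next hX w)
    filter_upwards [ih, h1, eventually_ge_atTop (loc ((hsq C w).1, nextk (hsq C w) w))]
      with n h2 h3 h5 L hL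
    rw [dec_succ, h2 L (fun k hk => hL k (by omega))]
    simp only [Option.bind_some]
    have h4 : cond (mem w L) (hsq C w).2 (w :: (hsq C w).2) = nextk (hsq C w) w := by
      unfold nextk
      by_cases h6 : w ∈ L
      · rw [mem_iff.2 h6, cond_true, if_neg ((mem_WW_iff hX w).1 ((hL w (by omega)).1 h6))]
      · have h7 : mem w L = false := by
          rw [← Bool.not_eq_true, mem_iff]; exact h6
        rw [h7, cond_false, if_pos]
        by_contra h8
        exact h6 ((hL w (by omega)).2 ((mem_WW_iff hX w).2 h8))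
    rw [h4, h3]
    simp only [Option.map_some]
    rw [hsq_succ' hX w, pre_take _ h5, List.range_succ, List.map_append]
    rfl

lemma stp_lim (w : ℕ) : ∀ᶠ n in atTop, stp (pre (xf X) n) w = some ((List.range w).map C) := by
  classical
  have h1 : ∀ᶠ n in atTop, ∀ k < w, k ∈ WS (xf X) n ↔ k ∈ WW (xf X) := by
    apply ev_ball (P := fun k n => k ∈ WS (xf X) n ↔ k ∈ WW (xf X))
    intro k _
    by_cases hk : k ∈ WW (xf X)
    · obtain ⟨n, hn⟩ := hk
      filter_upwards [eventually_ge_atTop n] with m hm
      exact ⟨fun _ => ⟨n, hn⟩, fun _ => WS_mono hm k hn⟩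
    · exact Eventually.of_forall (fun n => ⟨fun h => ⟨n, h⟩, fun h => absurd h hk⟩)
  filter_upwards [h1, dec_lim hX w] with n h2 h3
  unfold stp
  rw [wl_pre, h3 (WS (xf X) n) h2]
  rfl

end member

/-! ### the halting problem answers the questions about the classes -/

open Classical in
noncomputable def EE (z : ℕ) : ℕ :=
  if (cl (killH ((Encodable.decode (α := Hs) z).getD ([], [])))).Nonempty then 0 else 1

lemma EE_pos {h : Hs} (hne : (cl (killH h)).Nonempty) : EE (Encodable.encode h) = 0 := by
  unfold EE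
  rw [Encodable.encodek]
  simp only [Option.getD_some]
  rw [if_pos hne]

lemma EE_neg {h : Hs} (hne : ¬ (cl (killH h)).Nonempty) : EE (Encodable.encode h) = 1 := by
  unfold EE
  rw [Encodable.encodek]
  simp only [Option.getD_some]
  rw [if_neg hne]

lemma empty_iff (h : Hs) : ¬ (cl (killH h)).Nonempty ↔ ∃ n, surv h n = 0 := by
  classical
  constructor
  · intro h1
    rw [Set.not_nonempty_iff_eq_empty] at h1
    obtain ⟨N, hN⟩ := cl_bound (d := killH h) (T := Set.univ) (l := 0)
      (fun _ _ _ _ => Set.mem_univ _) (by rw [h1, Set.inter_empty])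
    refine ⟨N, ?_⟩
    unfold surv
    rw [Finset.card_eq_zero, Finset.filter_eq_empty_iff]
    intro m _ hm
    obtain ⟨n, hn, h2⟩ := hN (nX m) (Set.mem_univ _)
    rw [← sb_pre, survB_iff.1 hm n hn] at h2
    exact absurd h2 (by simp)
  · rintro ⟨n, hn⟩ ⟨X, hX⟩
    obtain ⟨m, hm, h1⟩ := ex_sb X n
    unfold surv at hn
    rw [Finset.card_eq_zero, Finset.filter_eq_empty_iff] at hn
    exact hn (Finset.mem_range.2 hm) (surv_of hX h1)

lemma EE_TR : TR EE K := by
  classical
  have hd : Computable (fun z : ℕ => (Encodable.decode (α := Hs) z).getD ([], [])) :=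
    Computable.option_getD Computable.decode (Computable.const _)
  have h1 : Computable₂ (fun (z n : ℕ) =>
      decide (surv ((Encodable.decode (α := Hs) z).getD ([], [])) n = 0)) :=
    c_eq (surv_c (hd.comp Computable.fst) Computable.snd) (Computable.const 0)
  have h2 : Partrec (fun z : ℕ => Nat.rfind (fun n => Part.some
      (decide (surv ((Encodable.decode (α := Hs) z).getD ([], [])) n = 0)))) :=
    Partrec.rfind h1.partrec₂
  obtain ⟨c, hc⟩ := Code.exists_code.1 (Partrec.nat_iff.1 h2)
  have h3 : Computable (fun z : ℕ => Nat.pair (Encodable.encode c) z) :=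
    Primrec₂.natPair.to_comp.comp (Computable.const _) Computable.id
  have h4 := (TR.refl K).comp (Computable.recT (O := {(K : ℕ →. ℕ)}) h3)
  refine Nat.RecursiveIn.of_eq h4 ?_
  intro z
  congr 1
  unfold K EE
  beta_reduce
  rw [Nat.unpair_pair]
  simp only [Denumerable.ofNat_encode]
  rw [hc]
  have h5 : (Nat.rfind (fun n => Part.some
      (decide (surv ((Encodable.decode (α := Hs) z).getD ([], [])) n = 0)))).Dom ↔
      ∃ n, surv ((Encodable.decode (α := Hs) z).getD ([], [])) n = 0 := by
    rw [Nat.rfind_dom]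
    simp
  rw [h5, ← empty_iff]
  by_cases h6 : (cl (killH ((Encodable.decode (α := Hs) z).getD ([], [])))).Nonempty
  · rw [if_pos h6, if_neg (fun h => h h6)]
  · rw [if_neg h6, if_pos h6]

/-- A set which does not compute the halting problem, being given by the construction. -/
theorem avoid_K {C : ℕ → Bool} {X : ℕ → Bool} (hX : ∀ s, X ∈ cl (killH (hsq C s))) :
    ¬ TR K (xf X) := by
  classical
  intro hK
  have hE : TR EE (xf X) := EE_TR.trans hK
  -- the histories are computable from `X`
  let O : Set (ℕ →. ℕ) := {((xf X : ℕ → ℕ) : ℕ →. ℕ)}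
  let D : ℕ → Hs := fun z => (Encodable.decode (α := Hs) z).getD ([], [])
  have hD : Computable D := Computable.option_getD Computable.decode (Computable.const _)
  -- the input of the step is `pair _ (pair s ih)`
  have cs : Computable (fun z : ℕ => z.unpair.2.unpair.1) :=
    Computable.fst.comp (Computable.unpair.comp (Computable.snd.comp Computable.unpair))
  have ch : Computable (fun z : ℕ => D z.unpair.2.unpair.2) :=
    hD.comp (Computable.snd.comp (Computable.unpair.comp (Computable.snd.comp
      Computable.unpair)))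
  have c1 : Computable (fun z : ℕ => Encodable.encode
      (((D z.unpair.2.unpair.2).1, z.unpair.2.unpair.1 :: (D z.unpair.2.unpair.2).2) : Hs)) :=
    Computable.encode.comp ((Computable.fst.comp ch).pair (Computable.list_cons.comp cs
      (Computable.snd.comp ch)))
  -- add the answer of the oracle
  let NK : ℕ → List ℕ := fun y => cond (decide (y.unpair.2 = 0))
    (y.unpair.1.unpair.2.unpair.1 :: (D y.unpair.1.unpair.2.unpair.2).2)
    (D y.unpair.1.unpair.2.unpair.2).2
  have ys : Computable (fun y : ℕ => y.unpair.1) := Computable.fst.comp Computable.unpair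
  have cNK : Computable NK :=
    Computable.cond (c_eq (Computable.snd.comp Computable.unpair) (Computable.const 0))
      (Computable.list_cons.comp (cs.comp ys) (Computable.snd.comp (ch.comp ys)))
      (Computable.snd.comp (ch.comp ys))
  have cLoc : Computable (fun y : ℕ => loc ((D y.unpair.1.unpair.2.unpair.2).1, NK y)) :=
    loc_c.comp ((Computable.fst.comp (ch.comp ys)).pair cNK)
  let FN : ℕ → ℕ := fun v => Encodable.encode
    ((((Encodable.decode (α := List ℕ) v.unpair.2).getD []) ::
      (D v.unpair.1.unpair.1.unpair.2.unpair.2).1, NK v.unpair.1) : Hs)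
  have vs : Computable (fun v : ℕ => v.unpair.1) := Computable.fst.comp Computable.unpair
  have cFN : Computable FN := by
    refine Computable.encode.comp ((Computable.list_cons.comp
      (Computable.option_getD (Computable.decode.comp (Computable.snd.comp Computable.unpair))
        (Computable.const [])) (Computable.fst.comp (ch.comp (ys.comp vs)))).pair
      (cNK.comp vs))
  have r1 : RecT O (fun z => Nat.pair z (EE (Encodable.encode
      (((D z.unpair.2.unpair.2).1, z.unpair.2.unpair.1 :: (D z.unpair.2.unpair.2).2) : Hs)))) :=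
    RecT.pair (Computable.recT Computable.id) (hE.comp (Computable.recT c1))
  have r2 := RecT.pair r1 (((recT_pre (O := O) (TR.refl (xf X))).comp
    (Computable.recT cLoc)).comp r1)
  have r3 := (Computable.recT (O := O) cFN).comp r2
  have r4 := RecT.prec (O := O) (Computable.recT (Computable.const
    (Encodable.encode (([], []) : Hs)))) r3
  have r5 := r4.comp (RecT.pair (Computable.recT (O := O) (Computable.const 0))
    (Computable.recT (O := O) Computable.id))
  have r6 : RecT O (fun s => Encodable.encode (hsq C s)) := by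
    refine Nat.RecursiveIn.of_eq r5 ?_
    intro s
    congr 1
    simp only [Nat.unpair_pair, id]
    induction s with
    | zero => rfl
    | succ s ih =>
      simp only at ih ⊢
      rw [ih]
      simp only [FN, NK, D, Nat.unpair_pair, Encodable.encodek, Option.getD_some]
      rw [hsq_succ' hX s]
      have h1 : cond (decide (EE (Encodable.encode
          (((hsq C s).1, s :: (hsq C s).2) : Hs)) = 0)) (s :: (hsq C s).2) (hsq C s).2 =
          nextk (hsq C s) s := by
        unfold nextk
        by_cases h2 : (cl (killH ((hsq C s).1, s :: (hsq C s).2))).Nonempty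
        · rw [EE_pos h2, if_pos h2]; rfl
        · rw [EE_neg h2, if_neg h2]; rfl
      rw [h1]
  -- hence so is the enumerated set
  apply WW_not_TR (xf X)
  have c3 : Computable (fun z : ℕ => Encodable.encode
      (((D z.unpair.2).1, z.unpair.1 :: (D z.unpair.2).2) : Hs)) := by
    have a1 : Computable (fun z : ℕ => D z.unpair.2) :=
      hD.comp (Computable.snd.comp Computable.unpair)
    exact Computable.encode.comp ((Computable.fst.comp a1).pair (Computable.list_cons.comp
      (Computable.fst.comp Computable.unpair) (Computable.snd.comp a1)))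
  have r7 := hE.comp ((Computable.recT c3).comp (RecT.pair
    (Computable.recT (O := O) Computable.id) r6))
  refine Nat.RecursiveIn.of_eq r7 ?_
  intro s
  congr 1
  simp only [Nat.unpair_pair, id, D, Encodable.encodek, Option.getD_some]
  unfold EE
  rw [Encodable.encodek]
  simp only [Option.getD_some]
  have h1 := mem_WW_iff hX s
  by_cases h2 : s ∈ WW (xf X)
  · rw [if_pos h2, if_neg (h1.1 h2)]
  · rw [if_neg h2, if_pos]
    by_contra h3
    exact h2 (h1.2 h3)

/-- the main result: a random sequence not computing the halting problem, relative to which the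
given set is K-trivial -/
theorem main (C : ℕ → Bool) : ∃ X : ℕ → Bool, X ∈ cl killR ∧ ¬ TR K (xf X) ∧
    ∃ c, ∀ n, KT.KG (xf X) (Encodable.encode ((List.range n).map C)) ≤ KT.KG (xf X) n + c := by
  obtain ⟨X, hX⟩ := exX C
  refine ⟨X, fun n => (killH_iff.1 (hX 0 n)).1, avoid_K hX, ?_⟩
  refine KT.triv_KG (X := fun n => (List.range n).map C) (fun f φ h1 h2 h3 => ?_)
  exact trivial_rel stp (xf X) stp_c stp_len (fun i hi => ⟨(i : ℝ) + 2, totP_bdd hi⟩)
    (fun n => (List.range n).map C) (stp_lim hX) f φ h1 h2 h3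

end Pool.Agent.L5helper75.PJ
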