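import Pool.Agent.L5helper75.AP.Comp

set_option autoImplicit false

/-! An operator enumerating, relative to every oracle, a set which is not computable from the
oracle and such that the total cost of the enumeration is finite. -/

namespace Pool.Agent.L5helper75.PJ

open Nat.Partrec (Code)
open Filter
open Pool.Agent.Helper743
open Pool.Agent.Helper743.PR (evT evR evR_spec)
open Pool.Agent.Helper743.AC (wN massN kk kk_p wR massR MR wN_p massN_p wN_cast massN_cast
  mass_le_iff wR_mono wR_nonneg massR_mono geo_le fsum_p pow_p outp outp_p outp_pre pre_outp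
  ev_code pre_take)

/-- the cost of the enumeration of `k`, scaled -/
noncomputable def costN (L i : ℕ) (β : List ℕ) (k : ℕ) : ℕ :=
  if massN L i β ≤ 2 ^ L then
    ∑ w ∈ Finset.range (β.length + 1), if k < w then wN L i β w else 0
  else 0

noncomputable def costR (i : ℕ) (β : List ℕ) (k : ℕ) : ℝ :=
  if massR i β ≤ 1 then
    ∑ w ∈ Finset.range (β.length + 1), if k < w then wR i β w else 0
  else 0

def Act (β L : List ℕ) (k : ℕ) : Prop :=
  (∀ k' ∈ L, k'.unpair.1 ≠ k.unpair.1) ∧ outp k.unpair.1 β k 0 ∧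
    ∀ i ∈ List.range (k.unpair.1 + 1), 2 ^ k.unpair.1 * costN β.length i β k ≤ 2 ^ β.length

section prim

attribute [local irreducible] wN massN outp

lemma costN_p : Primrec (fun q : ((ℕ × ℕ) × List ℕ) × ℕ => costN q.1.1.1 q.1.1.2 q.1.2 q.2) := by
  have h1 : PrimrecPred (fun q : ((ℕ × ℕ) × List ℕ) × ℕ =>
      massN q.1.1.1 q.1.1.2 q.1.2 ≤ 2 ^ q.1.1.1) :=
    Primrec.nat_le.comp (massN_p.comp Primrec.fst)
      (pow_p.comp (Primrec.fst.comp (Primrec.fst.comp Primrec.fst)))
  have h2 : PrimrecPred (fun z : (((ℕ × ℕ) × List ℕ) × ℕ) × ℕ => z.1.2 < z.2) :=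
    Primrec.nat_lt.comp (Primrec.snd.comp Primrec.fst) Primrec.snd
  have h3 : Primrec (fun z : (((ℕ × ℕ) × List ℕ) × ℕ) × ℕ =>
      wN z.1.1.1.1 z.1.1.1.2 z.1.1.2 z.2) :=
    wN_p.comp ((Primrec.fst.comp Primrec.fst).pair Primrec.snd)
  have h4 := Primrec.ite h2 h3 (Primrec.const 0)
  have h5 := fsum_p (Primrec.succ.comp (Primrec.list_length.comp
    (Primrec.snd.comp (Primrec.fst (α := (ℕ × ℕ) × List ℕ) (β := ℕ))))) h4.to₂
  have h6 := Primrec.ite h1 h5 (Primrec.const 0)
  refine h6.of_eq ?_
  intro q
  unfold costN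
  rfl

attribute [local irreducible] costN

lemma Act_p : PrimrecPred (fun q : (List ℕ × List ℕ) × ℕ => Act q.1.1 q.1.2 q.2) := by
  have e : Primrec (fun q : (List ℕ × List ℕ) × ℕ => q.2.unpair.1) :=
    Primrec.fst.comp (Primrec.unpair.comp Primrec.snd)
  have a1 : PrimrecRel (fun (k' : ℕ) (q : (List ℕ × List ℕ) × ℕ) =>
      k'.unpair.1 ≠ q.2.unpair.1) :=
    (Primrec.eq.comp (Primrec.fst.comp (Primrec.unpair.comp Primrec.fst))
      (e.comp Primrec.snd)).not
  have h1 : PrimrecPred (fun q : (List ℕ × List ℕ) × ℕ =>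
      ∀ k' ∈ q.1.2, k'.unpair.1 ≠ q.2.unpair.1) :=
    a1.forall_mem_list.comp (Primrec.snd.comp Primrec.fst) Primrec.id
  have h2 : PrimrecPred (fun q : (List ℕ × List ℕ) × ℕ => outp q.2.unpair.1 q.1.1 q.2 0) :=
    outp_p.comp ((e.pair (Primrec.fst.comp Primrec.fst)).pair
      (Primrec.snd.pair (Primrec.const 0)))
  have i : Primrec (fun z : ℕ × ((List ℕ × List ℕ) × ℕ) => z.1) := Primrec.fst
  have ez : Primrec (fun z : ℕ × ((List ℕ × List ℕ) × ℕ) => 2 ^ z.2.2.unpair.1) :=
    pow_p.comp (e.comp Primrec.snd)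
  have bz : Primrec (fun z : ℕ × ((List ℕ × List ℕ) × ℕ) => z.2.1.1) :=
    Primrec.fst.comp (Primrec.fst.comp Primrec.snd)
  have lz := Primrec.list_length.comp bz
  have kz : Primrec (fun z : ℕ × ((List ℕ × List ℕ) × ℕ) => z.2.2) :=
    Primrec.snd.comp Primrec.snd
  have b1 := Primrec.nat_mul.comp ez (costN_p.comp (((lz.pair i).pair bz).pair kz))
  have b2 : PrimrecRel (fun (i : ℕ) (q : (List ℕ × List ℕ) × ℕ) =>
      2 ^ q.2.unpair.1 * costN q.1.1.length i q.1.1 q.2 ≤ 2 ^ q.1.1.length) :=
    Primrec.nat_le.comp b1 (pow_p.comp lz)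
  have h3 : PrimrecPred (fun q : (List ℕ × List ℕ) × ℕ => ∀ i ∈ List.range (q.2.unpair.1 + 1),
      2 ^ q.2.unpair.1 * costN q.1.1.length i q.1.1 q.2 ≤ 2 ^ q.1.1.length) :=
    b2.forall_mem_list.comp (Primrec.list_range.comp (Primrec.succ.comp e)) Primrec.id
  exact PrimrecPred.and h1 (PrimrecPred.and h2 h3)

attribute [local irreducible] Act

noncomputable def ix (β L : List ℕ) : ℕ :=
  open Classical in (List.range β.length).findIdx (fun k => decide (Act β L k))

lemma ix_p : Primrec₂ ix := by
  classical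
  have h1 : PrimrecPred (fun z : (List ℕ × List ℕ) × ℕ => Act z.1.1 z.1.2 z.2) := Act_p
  have h2 : Primrec₂ (fun (q : List ℕ × List ℕ) (k : ℕ) => decide (Act q.1 q.2 k)) := h1.decide
  exact Primrec.list_findIdx (Primrec.list_range.comp (Primrec.list_length.comp Primrec.fst)) h2

attribute [local irreducible] ix

noncomputable def upd (β L : List ℕ) : List ℕ :=
  if ix β L < β.length then ix β L :: L else L

lemma upd_p : Primrec₂ upd := by
  have h1 : PrimrecPred (fun q : List ℕ × List ℕ => ix q.1 q.2 < q.1.length) :=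
    Primrec.nat_lt.comp ix_p (Primrec.list_length.comp Primrec.fst)
  have h2 := Primrec.ite h1 (Primrec.list_cons.comp ix_p Primrec.snd) Primrec.snd
  exact h2

attribute [local irreducible] upd

/-- the list of the numbers enumerated along a string -/
noncomputable def wl (β : List ℕ) : List ℕ :=
  Nat.rec [] (fun n L => upd (β.take (n + 1)) L) β.length

lemma wl_p : Primrec wl := by
  have h1 : Primrec₂ (fun (β : List ℕ) (z : ℕ × List ℕ) => upd (β.take (z.1 + 1)) z.2) := by
    have h := upd_p.comp (Primrec.list_take.comp (Primrec.succ.comp (Primrec.fst.comp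
      (Primrec.snd (α := List ℕ) (β := ℕ × List ℕ)))) Primrec.fst)
      (Primrec.snd.comp Primrec.snd)
    exact h
  exact Primrec.nat_rec' Primrec.list_length (Primrec.const ([] : List ℕ)) h1

end prim

/-- the list of the numbers enumerated at the stage `n` -/
noncomputable def WS (G : ℕ → ℕ) (n : ℕ) : List ℕ :=
  Nat.rec [] (fun m L => upd (pre G (m + 1)) L) n

lemma WS_succ (G : ℕ → ℕ) (n : ℕ) : WS G (n + 1) = upd (pre G (n + 1)) (WS G n) := rfl

lemma wl_pre (G : ℕ → ℕ) (n : ℕ) : wl (pre G n) = WS G n := by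
  have h : ∀ N n, n ≤ N → (Nat.rec [] (fun m L => upd ((pre G N).take (m + 1)) L) n : List ℕ) =
      WS G n := by
    intro N n
    induction n with
    | zero => intro _; rfl
    | succ n ih =>
      intro hn
      show upd ((pre G N).take (n + 1)) _ = _
      rw [ih (by omega), pre_take G hn]
      rfl
  unfold wl
  rw [pre_length]
  exact h n n (le_refl n)

/-- the enumerated set -/
def WW (G : ℕ → ℕ) : Set ℕ := {k | ∃ n, k ∈ WS G n}

lemma upd_cases (β L : List ℕ) : (ix β L < β.length ∧ upd β L = ix β L :: L ∧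
      Act β L (ix β L) ∧ ∀ k < ix β L, ¬ Act β L k) ∨
    (upd β L = L ∧ ∀ k < β.length, ¬ Act β L k) := by
  classical
  by_cases h : ix β L < β.length
  · left
    refine ⟨h, ?_, ?_, ?_⟩
    · unfold upd; rw [if_pos h]
    · unfold ix at h ⊢
      have h1 : (List.range β.length).findIdx (fun k => decide (Act β L k)) <
          (List.range β.length).length := by simpa using h
      have h2 := List.findIdx_getElem (w := h1)
      simpa using h2
    · intro k hk
      unfold ix at hk
      have h2 := List.not_of_lt_findIdx hk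
      simpa using h2
  · right
    refine ⟨?_, ?_⟩
    · unfold upd; rw [if_neg h]
    · intro k hk
      have hk' : k < (List.range β.length).findIdx (fun k => decide (Act β L k)) := by
        unfold ix at h; omega
      have h2 := List.not_of_lt_findIdx hk'
      simpa using h2

lemma WS_mono {G : ℕ → ℕ} {n m : ℕ} (h : n ≤ m) : ∀ k ∈ WS G n, k ∈ WS G m := by
  induction m, h using Nat.le_induction with
  | base => exact fun k hk => hk
  | succ m _ ih =>
    intro k hk
    rw [WS_succ]
    rcases upd_cases (pre G (m + 1)) (WS G m) with ⟨_, h2, _⟩ | ⟨h2, _⟩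
    · rw [h2]; exact List.mem_cons_of_mem _ (ih k hk)
    · rw [h2]; exact ih k hk

lemma WS_act {G : ℕ → ℕ} {n k : ℕ} (h : k ∈ WS G n) :
    ∃ m, Act (pre G (m + 1)) (WS G m) k := by
  induction n with
  | zero => simp [WS] at h
  | succ n ih =>
    rw [WS_succ] at h
    rcases upd_cases (pre G (n + 1)) (WS G n) with ⟨_, h2, h3, _⟩ | ⟨h2, _⟩
    · rw [h2, List.mem_cons] at h
      rcases h with h | h
      · rw [h]; exact ⟨n, h3⟩
      · exact ih h
    · rw [h2] at h; exact ih h

/-- distinct members have distinct first components -/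
lemma WS_inj (G : ℕ → ℕ) (n : ℕ) : ∀ k ∈ WS G n, ∀ k' ∈ WS G n, k.unpair.1 = k'.unpair.1 →
    k = k' := by
  induction n with
  | zero => intro k hk; simp [WS] at hk
  | succ n ih =>
    intro k hk k' hk' he
    rw [WS_succ] at hk hk'
    rcases upd_cases (pre G (n + 1)) (WS G n) with ⟨_, h2, h3, _⟩ | ⟨h2, _⟩
    · rw [h2, List.mem_cons] at hk hk'
      rcases hk with hk | hk
      · rcases hk' with hk' | hk'
        · rw [hk, hk']
        · exact absurd he.symm (by rw [hk]; exact h3.1 k' hk')
      · rcases hk' with hk' | hk'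
        · exact absurd he (by rw [hk']; exact h3.1 k hk)
        · exact ih k hk k' hk' he
    · rw [h2] at hk hk'; exact ih k hk k' hk' he

/-! costs -/

lemma costN_cast {L i : ℕ} {β : List ℕ} {k : ℕ} (h : β.length ≤ L) :
    (costN L i β k : ℝ) = 2 ^ L * costR i β k := by
  unfold costN costR
  by_cases h1 : massR i β ≤ 1
  · rw [if_pos h1, if_pos ((mass_le_iff h).2 h1), Finset.mul_sum]
    push_cast
    refine Finset.sum_congr rfl (fun w _ => ?_)
    by_cases h2 : k < w
    · rw [if_pos h2, if_pos h2]; exact wN_cast h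
    · rw [if_neg h2, if_neg h2]; simp
  · rw [if_neg h1, if_neg (fun h2 => h1 ((mass_le_iff h).1 h2))]; simp

lemma cost_iff {i e : ℕ} {β : List ℕ} {k : ℕ} :
    2 ^ e * costN β.length i β k ≤ 2 ^ β.length ↔ costR i β k ≤ (1 / 2) ^ e := by
  have h1 : (costN β.length i β k : ℝ) = 2 ^ β.length * costR i β k := costN_cast (le_refl _)
  have h2 : (2 ^ e * costN β.length i β k ≤ 2 ^ β.length) ↔
      ((2 : ℝ) ^ e * (2 ^ β.length * costR i β k) ≤ 2 ^ β.length) := by
    rw [← h1]
    constructor
    · intro h; exact_mod_cast h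
    · intro h; exact_mod_cast h
  rw [h2]
  have h4 : (0 : ℝ) < 2 ^ e * 2 ^ β.length := by positivity
  have h5 : (2 : ℝ) ^ β.length = 2 ^ e * 2 ^ β.length * ((1 / 2) ^ e) := by
    have : (2 : ℝ) ^ e * (1 / 2) ^ e = 1 := by rw [← mul_pow]; norm_num
    calc (2 : ℝ) ^ β.length = 2 ^ β.length * (2 ^ e * (1 / 2) ^ e) := by rw [this, mul_one]
      _ = _ := by ring
  constructor
  · intro h
    rw [← mul_assoc] at h
    have h6 : 2 ^ e * 2 ^ β.length * costR i β k ≤ 2 ^ e * 2 ^ β.length * ((1 / 2) ^ e) := by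
      rw [← h5]; exact h
    exact le_of_mul_le_mul_left h6 h4
  · intro h
    rw [← mul_assoc]
    calc 2 ^ e * 2 ^ β.length * costR i β k ≤ 2 ^ e * 2 ^ β.length * ((1 / 2) ^ e) :=
          mul_le_mul_of_nonneg_left h h4.le
      _ = _ := h5.symm

lemma costR_nonneg (i : ℕ) (β : List ℕ) (k : ℕ) : 0 ≤ costR i β k := by
  unfold costR
  split_ifs
  · apply Finset.sum_nonneg
    intro w _
    split_ifs
    · exact wR_nonneg _ _ _
    · exact le_refl _
  · exact le_refl _

lemma costR_le_one (i : ℕ) (β : List ℕ) (k : ℕ) : costR i β k ≤ 1 := by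
  unfold costR
  split_ifs with h
  · refine le_trans ?_ h
    unfold massR
    refine Finset.sum_le_sum (fun w _ => ?_)
    split_ifs
    · exact le_refl _
    · exact wR_nonneg _ _ _
  · exact zero_le_one

lemma Act_cost {β L : List ℕ} {k : ℕ} (h : Act β L k) {i : ℕ} (hi : i ≤ k.unpair.1) :
    costR i β k ≤ (1 / 2) ^ k.unpair.1 :=
  cost_iff.1 (h.2.2 i (List.mem_range.2 (by omega)))

/-- the cost paid at the stage `n` -/
noncomputable def cc (G : ℕ → ℕ) (i n : ℕ) : ℝ :=
  if ix (pre G (n + 1)) (WS G n) < n + 1 then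
    costR i (pre G (n + 1)) (ix (pre G (n + 1)) (WS G n)) else 0

lemma cc_nonneg (G : ℕ → ℕ) (i n : ℕ) : 0 ≤ cc G i n := by
  unfold cc
  split_ifs
  · exact costR_nonneg _ _ _
  · exact le_refl _

noncomputable def cb (i e : ℕ) : ℝ := if i ≤ e then (1 / 2) ^ e else 1

lemma cb_nonneg (i e : ℕ) : 0 ≤ cb i e := by
  unfold cb
  split_ifs
  · positivity
  · exact zero_le_one

lemma cc_sum (G : ℕ → ℕ) (i n : ℕ) :
    ∑ j ∈ Finset.range n, cc G i j ≤ ∑ k ∈ (WS G n).toFinset, cb i k.unpair.1 := by
  induction n with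
  | zero => simp [WS]
  | succ n ih =>
    rw [Finset.sum_range_succ]
    rcases upd_cases (pre G (n + 1)) (WS G n) with ⟨h1, h2, h3, _⟩ | ⟨h2, h3⟩
    · rw [WS_succ, h2, List.toFinset_cons, Finset.sum_insert]
      · have h4 : cc G i n ≤ cb i (ix (pre G (n + 1)) (WS G n)).unpair.1 := by
          unfold cc cb
          rw [if_pos (by rw [pre_length] at h1; exact h1)]
          split_ifs with h5
          · exact Act_cost h3 h5
          · exact costR_le_one _ _ _
        linarith
      · intro hmem
        rw [List.mem_toFinset] at hmem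
        exact h3.1 _ hmem rfl
    · rw [WS_succ, h2]
      have h4 : cc G i n = 0 := by
        unfold cc
        rw [if_neg]
        intro h5
        rcases upd_cases (pre G (n + 1)) (WS G n) with ⟨_, _, h6, _⟩ | ⟨_, _⟩
        · exact h3 _ (by rw [pre_length]; exact h5) h6
        · have h7 : upd (pre G (n + 1)) (WS G n) =
              ix (pre G (n + 1)) (WS G n) :: WS G n := by
            unfold upd
            rw [if_pos (by rw [pre_length]; exact h5)]
          rw [h7] at h2
          have := congrArg List.length h2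
          simp at this
      linarith

lemma cb_sum (i : ℕ) (S : Finset ℕ) : ∑ e ∈ S, cb i e ≤ i + 2 := by
  have h1 : ∀ e ∈ S, cb i e ≤ (if e < i then 1 else 0) + (1 / 2) ^ e := by
    intro e _
    unfold cb
    split_ifs with h2 h3 h3
    · omega
    · linarith
    · have : (0 : ℝ) ≤ (1 / 2) ^ e := by positivity
      linarith
    · omega
  have h2 : ∑ e ∈ S, (if e < i then (1 : ℝ) else 0) ≤ i := by
    rw [← Finset.sum_filter]
    rw [Finset.sum_const, nsmul_eq_mul, mul_one]
    have h3 : (S.filter (fun e => e < i)).card ≤ (Finset.range i).card := by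
      apply Finset.card_le_card
      intro e he
      rw [Finset.mem_filter] at he
      exact Finset.mem_range.2 he.2
    rw [Finset.card_range] at h3
    exact_mod_cast h3
  calc ∑ e ∈ S, cb i e ≤ ∑ e ∈ S, ((if e < i then 1 else 0) + (1 / 2) ^ e) :=
        Finset.sum_le_sum h1
    _ = ∑ e ∈ S, (if e < i then (1 : ℝ) else 0) + ∑ e ∈ S, ((1 : ℝ) / 2) ^ e :=
        Finset.sum_add_distrib
    _ ≤ i + 2 := add_le_add h2 (geo_le S)

lemma cc_bdd (G : ℕ → ℕ) (i n : ℕ) : ∑ j ∈ Finset.range n, cc G i j ≤ i + 2 := by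
  refine le_trans (cc_sum G i n) ?_
  have hinj : Set.InjOn (fun k : ℕ => k.unpair.1) (WS G n).toFinset := by
    intro k hk k' hk' he
    rw [Finset.mem_coe, List.mem_toFinset] at hk hk'
    exact WS_inj G n k hk k' hk' he
  rw [← Finset.sum_image (f := fun e => cb i e) hinj]
  exact cb_sum i _

/-! the set is not computable from the oracle -/

lemma tail_cost (G : ℕ → ℕ) (i : ℕ) {ε : ℝ} (hε : 0 < ε) :
    ∃ k0, ∀ k, k0 ≤ k → ∀ᶠ n in atTop, costR i (pre G n) k ≤ ε := by
  by_cases h : ∀ n, massR i (pre G n) ≤ 1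
  · have hb : BddAbove (Set.range (fun n => massR i (pre G n))) := by
      refine ⟨1, ?_⟩
      rintro _ ⟨n, rfl⟩
      exact h n
    obtain ⟨N, hN⟩ := exists_lt_of_lt_ciSup (f := fun n => massR i (pre G n))
      (show (⨆ n, massR i (pre G n)) - ε < ⨆ n, massR i (pre G n) by linarith)
    refine ⟨N, fun k hk => ?_⟩
    filter_upwards [eventually_ge_atTop N] with n hn
    have h1 := le_ciSup hb n
    have h2 : costR i (pre G n) k + massR i (pre G N) ≤ massR i (pre G n) := by
      unfold costR
      rw [if_pos (h n)]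
      have h3 : massR i (pre G N) ≤ ∑ w ∈ Finset.range ((pre G n).length + 1),
          (if k < w then 0 else wR i (pre G n) w) := by
        unfold massR
        calc ∑ w ∈ Finset.range ((pre G N).length + 1), wR i (pre G N) w
            ≤ ∑ w ∈ Finset.range ((pre G N).length + 1),
              (if k < w then 0 else wR i (pre G n) w) := by
              refine Finset.sum_le_sum (fun w hw => ?_)
              rw [Finset.mem_range, pre_length] at hw
              rw [if_neg (by omega)]
              exact wR_mono (pre_prefix G hn) w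
          _ ≤ _ := by
              apply Finset.sum_le_sum_of_subset_of_nonneg
              · exact Finset.range_mono (by rw [pre_length, pre_length]; omega)
              · intro w _ _
                split_ifs
                · exact le_refl _
                · exact wR_nonneg _ _ _
      have h4 : massR i (pre G n) = ∑ w ∈ Finset.range ((pre G n).length + 1),
          (if k < w then wR i (pre G n) w else 0) +
          ∑ w ∈ Finset.range ((pre G n).length + 1),
          (if k < w then 0 else wR i (pre G n) w) := by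
        rw [← Finset.sum_add_distrib]
        unfold massR
        refine Finset.sum_congr rfl (fun w _ => ?_)
        split_ifs <;> simp
      linarith
    linarith
  · push Not at h
    obtain ⟨N, hN⟩ := h
    refine ⟨0, fun k _ => ?_⟩
    filter_upwards [eventually_ge_atTop N] with n hn
    have h1 := massR_mono (i := i) (pre_prefix G hn)
    unfold costR
    rw [if_neg (by linarith)]
    exact hε.le

open Classical in
theorem WW_not_TR (G : ℕ → ℕ) : ¬ TR (fun k => if k ∈ WW G then 1 else 0) G := by
  intro hTR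
  obtain ⟨ev, hev, hmono, hcor⟩ := use_principle G _ hTR
  obtain ⟨e, he⟩ := ev_code hev
  have hval : ∀ {n x y}, outp e (pre G n) x y → y = if x ∈ WW G then 1 else 0 := by
    intro n x y h
    obtain ⟨j, hj⟩ := outp_pre he h
    have h1 := (hcor x y).2 ⟨j, hj⟩
    exact Part.mem_some_iff.1 h1
  have hno : ∀ k, k.unpair.1 = e → k ∉ WW G := by
    rintro k hk ⟨n, hn⟩
    obtain ⟨m, hm⟩ := WS_act hn
    have h1 := hm.2.1
    rw [hk] at h1
    have h2 := hval h1
    rw [if_pos ⟨n, hn⟩] at h2
    exact absurd h2 (by norm_num)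
  have hε : (0 : ℝ) < (1 / 2) ^ e := by positivity
  choose k0 hk0 using fun i => tail_cost G i hε
  set j := (Finset.range (e + 1)).sup k0 with hj
  set k := Nat.pair e j with hk
  have hk1 : k.unpair.1 = e := by rw [hk, Nat.unpair_pair]
  have hjk : j ≤ k := Nat.right_le_pair e j
  have hc : ∀ i ∈ List.range (e + 1), ∀ᶠ n in atTop, costR i (pre G n) k ≤ (1 / 2) ^ e := by
    intro i hi
    rw [List.mem_range] at hi
    apply hk0 i k
    refine le_trans ?_ hjk
    exact Finset.le_sup (f := k0) (Finset.mem_range.2 hi)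
  have hc' := PR.ev_list (P := fun n i => costR i (pre G n) k ≤ (1 / 2) ^ e) hc
  have ho : ∀ᶠ n in atTop, outp e (pre G n) k 0 := by
    obtain ⟨y, hy⟩ := (hcor k (if k ∈ WW G then 1 else 0)).1 (Part.mem_some _)
    have := pre_outp he hy
    rw [if_neg (hno k hk1)] at this
    exact this
  have hact : ∀ᶠ n in atTop, Act (pre G n) (WS G (n - 1)) k ∧ k < n := by
    filter_upwards [hc', ho, eventually_gt_atTop k] with n h1 h2 h3
    refine ⟨⟨?_, by rw [hk1]; exact h2, ?_⟩, h3⟩
    · intro k' hk' h4
      exact hno k' (by rw [h4, hk1]) ⟨_, hk'⟩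
    · intro i hi
      rw [hk1] at hi ⊢
      exact cost_iff.2 (h1 i hi)
  obtain ⟨n0, hn0⟩ := eventually_atTop.1 hact
  -- at every late stage a number below `k` is enumerated
  have hgrow : ∀ d, d ≤ ((WS G (n0 + d)).toFinset.filter (fun x => x ≤ k)).card := by
    intro d
    induction d with
    | zero => exact Nat.zero_le _
    | succ d ih =>
      have h1 := hn0 (n0 + d + 1) (by omega)
      rw [Nat.add_sub_cancel] at h1
      rcases upd_cases (pre G (n0 + d + 1)) (WS G (n0 + d)) with ⟨h2, h3, h4, h5⟩ | ⟨_, h3⟩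
      · have h6 : ix (pre G (n0 + d + 1)) (WS G (n0 + d)) ≤ k := by
          by_contra hlt
          push Not at hlt
          exact h5 k hlt h1.1
        have h7 : ix (pre G (n0 + d + 1)) (WS G (n0 + d)) ∉
            (WS G (n0 + d)).toFinset.filter (fun x => x ≤ k) := by
          intro hmem
          rw [Finset.mem_filter, List.mem_toFinset] at hmem
          exact h4.1 _ hmem.1 rfl
        have h8 : (WS G (n0 + (d + 1))).toFinset.filter (fun x => x ≤ k) =
            insert (ix (pre G (n0 + d + 1)) (WS G (n0 + d)))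
              ((WS G (n0 + d)).toFinset.filter (fun x => x ≤ k)) := by
          have h9 : n0 + (d + 1) = n0 + d + 1 := by omega
          rw [h9, WS_succ, h3, List.toFinset_cons, Finset.filter_insert, if_pos h6]
        rw [h8, Finset.card_insert_of_notMem h7]
        omega
      · exact absurd h1.1 (h3 k (by rw [pre_length]; exact h1.2))
  have h1 := hgrow (k + 2)
  have h2 : ((WS G (n0 + (k + 2))).toFinset.filter (fun x => x ≤ k)).card ≤
      (Finset.range (k + 1)).card := by
    apply Finset.card_le_card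
    intro x hx
    rw [Finset.mem_filter] at hx
    exact Finset.mem_range.2 (by omega)
  rw [Finset.card_range] at h2
  omega

end Pool.Agent.L5helper75.PJ
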